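import Pool.Agent.Lib.MP_938ce2_ag_h99.LevelMany

/-!
Quadratic characters and their sums.
-/

set_option autoImplicit false
set_option linter.unusedSectionVars false

open Finset

namespace Pool.Agent.Lib.MP_938ce2_ag_h99t

open Pool.Agent.Lib.MP_938ce2_ag_h99

/-- The quadratic character of conductor `p` (of conductor `4` for `p = 2`). -/
def ch (p : ℕ) (a : ℤ) : ℤ := if p = 2 then ZMod.χ₄ (a : ZMod 4) else jacobiSym a p

lemma ch_mul (p : ℕ) (a b : ℤ) : ch p (a * b) = ch p a * ch p b := by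
  unfold ch
  split_ifs
  · rw [Int.cast_mul, map_mul]
  · exact jacobiSym.mul_left a b p

lemma ch_congr {p : ℕ} {a b : ℤ} (h : (ep p : ℤ) ∣ a - b) : ch p a = ch p b := by
  unfold ep at h
  unfold ch
  split_ifs at h ⊢ with h2
  · have h3 : ((a : ZMod 4)) = (b : ZMod 4) := by
      rw [ZMod.intCast_eq_intCast_iff_dvd_sub]
      have h4 : ((4 : ℕ) : ℤ) ∣ a - b := by exact_mod_cast h
      have h5 := (dvd_neg.mpr h4)
      rwa [neg_sub] at h5
    rw [h3]
  · apply jacobiSym.mod_left'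
    exact Int.emod_eq_emod_iff_emod_sub_eq_zero.mpr (Int.emod_eq_zero_of_dvd h)

lemma ch_neg_one {p : ℕ} (hp : p.Prime) (h : p = 2 ∨ p % 4 = 3) : ch p (-1) = -1 := by
  unfold ch
  split_ifs with h2
  · decide
  · have h3 : p % 4 = 3 := h.resolve_left h2
    rw [jacobiSym.at_neg_one (hp.odd_of_ne_two h2), ZMod.χ₄_nat_three_mod_four h3]

lemma ch_sign {p : ℕ} (hp : p.Prime) {a : ℤ} (h : ¬ (p : ℤ) ∣ a) : ch p a = 1 ∨ ch p a = -1 := by
  unfold ch
  split_ifs with h2
  · subst h2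
    have h3 : a % 4 = 1 ∨ a % 4 = 3 := by omega
    rcases h3 with h3 | h3
    · left
      exact ZMod.χ₄_int_one_mod_four h3
    · right
      exact ZMod.χ₄_int_three_mod_four h3
  · apply jacobiSym.eq_one_or_neg_one
    rw [Int.gcd_comm]
    have := (Nat.Prime.coprime_iff_not_dvd hp (n := a.natAbs)).mpr (by
      intro h3
      exact h (Int.natCast_dvd.mpr h3))
    exact this

/-- the allowed sets of primes -/
def Good (J : Finset ℕ) : Prop := ∀ p ∈ J, p.Prime ∧ (p = 2 ∨ p % 4 = 3)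

/-- the level -/
def fJ (J : Finset ℕ) : ℕ := ∏ p ∈ J, ep p

/-- the product character -/
def cI (I : Finset ℕ) (k : ℤ) : ℤ := ∏ q ∈ I, ch q k

lemma cI_mul (I : Finset ℕ) (a b : ℤ) : cI I (a * b) = cI I a * cI I b := by
  unfold cI
  rw [← prod_mul_distrib]
  exact prod_congr rfl fun q _ => ch_mul q a b

lemma Good.mono {I J : Finset ℕ} (h : Good J) (hIJ : I ⊆ J) : Good I := fun p hp => h p (hIJ hp)

lemma ep_dvd_fJ {J : Finset ℕ} {p : ℕ} (hp : p ∈ J) : ep p ∣ fJ J := Finset.dvd_prod_of_mem ep hp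

lemma cI_congr {I J : Finset ℕ} (hIJ : I ⊆ J) {a b : ℤ} (h : (fJ J : ℤ) ∣ a - b) :
    cI I a = cI I b := by
  unfold cI
  refine prod_congr rfl fun q hq => ch_congr ?_
  exact (Int.natCast_dvd_natCast.mpr (ep_dvd_fJ (hIJ hq))).trans h

lemma fJ_pos {J : Finset ℕ} (h : Good J) : 0 < fJ J :=
  Finset.prod_pos fun p hp => ep_pos (h p hp).1

lemma p_dvd_ep {p : ℕ} : p ∣ ep p := by
  unfold ep
  split_ifs with h
  · subst h
    norm_num
  · exact dvd_rfl

lemma two_lt_ep {p : ℕ} (hp : p.Prime) : 2 < ep p := by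
  unfold ep
  split_ifs with h
  · norm_num
  · have := hp.two_le
    omega

lemma two_lt_fJ {J : Finset ℕ} (h : Good J) (hne : J.Nonempty) : 2 < fJ J := by
  obtain ⟨p, hp⟩ := hne
  exact (two_lt_ep (h p hp).1).trans_le (Nat.le_of_dvd (fJ_pos h) (ep_dvd_fJ hp))

lemma coprime_ep_iff {p k : ℕ} (hp : p.Prime) : Nat.Coprime k (ep p) ↔ ¬ p ∣ k := by
  unfold ep
  split_ifs with h
  · subst h
    constructor
    · intro h1 h2
      have h3 := Nat.dvd_gcd h2 (show 2 ∣ 4 by norm_num)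
      rw [h1] at h3
      omega
    · intro h1
      show Nat.Coprime k (2 ^ 2)
      exact Nat.Coprime.pow_right _ ((Nat.coprime_comm.mp
        ((Nat.Prime.coprime_iff_not_dvd Nat.prime_two).mpr h1)))
  · rw [Nat.coprime_comm]
    exact Nat.Prime.coprime_iff_not_dvd hp

lemma coprime_fJ_iff {J : Finset ℕ} (h : Good J) {k : ℕ} :
    Nat.Coprime k (fJ J) ↔ ∀ p ∈ J, ¬ p ∣ k := by
  unfold fJ
  rw [Nat.coprime_prod_right_iff]
  exact forall₂_congr fun p hp => coprime_ep_iff (h p hp).1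

lemma ch_sign_of_coprime {J : Finset ℕ} (h : Good J) {k : ℕ} (hk : Nat.Coprime k (fJ J)) {q : ℕ}
    (hq : q ∈ J) : ch q k = 1 ∨ ch q k = -1 := by
  apply ch_sign (h q hq).1
  intro h1
  exact (coprime_fJ_iff h).mp hk q hq (Int.natCast_dvd_natCast.mp h1)

lemma cI_sign {I : Finset ℕ} {k : ℤ} (h : ∀ q ∈ I, ch q k = 1 ∨ ch q k = -1) :
    cI I k = 1 ∨ cI I k = -1 := by
  classical
  unfold cI
  induction I using Finset.induction_on with
  | empty => simp
  | insert a s ha ih =>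
    rw [prod_insert ha]
    rcases h a (mem_insert_self a s) with h1 | h1 <;>
      rcases ih (fun q hq => h q (mem_insert_of_mem hq)) with h2 | h2 <;> rw [h1, h2] <;> simp

/-- the twisted sum -/
noncomputable def C (n : ℕ) (J I : Finset ℕ) : ℚ :=
  ∑ k ∈ range (n * fJ J), if Nat.Coprime k (fJ J) then
    (cI I k : ℚ) * ((k : ℚ) / (n * fJ J : ℕ) - 1 / 2) else 0

lemma sum_range_mul_add (g : ℕ → ℚ) (f : ℕ) : ∀ n : ℕ,
    ∑ k ∈ range (n * f), g k = ∑ j ∈ range n, ∑ y ∈ range f, g (j * f + y)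
  | 0 => by simp
  | n + 1 => by
    rw [Nat.succ_mul, Finset.sum_range_add, sum_range_mul_add g f n, Finset.sum_range_succ]

lemma C_dist {n : ℕ} (hn : 0 < n) {J I : Finset ℕ} (hJ : Good J) (hIJ : I ⊆ J) :
    C n J I = C 1 J I := by
  have hf : (fJ J : ℚ) ≠ 0 := by
    have := fJ_pos hJ
    positivity
  have hn' : (n : ℚ) ≠ 0 := by positivity
  unfold C
  rw [sum_range_mul_add, sum_comm, one_mul]
  refine sum_congr rfl fun y _ => ?_
  have h1 : ∀ j, Nat.Coprime (j * fJ J + y) (fJ J) ↔ Nat.Coprime y (fJ J) := fun j => by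
    rw [Nat.add_comm, Nat.coprime_add_mul_right_left]
  have h2 : ∀ j : ℕ, cI I ((j * fJ J + y : ℕ) : ℤ) = cI I (y : ℤ) := fun j =>
    cI_congr hIJ ⟨j, by push_cast; ring⟩
  by_cases hy : Nat.Coprime y (fJ J)
  · simp only [h1, h2, if_pos hy]
    rw [← mul_sum]
    congr 1
    push_cast
    rw [sum_sub_distrib, sum_const, card_range, nsmul_eq_mul]
    have h3 : ∑ j ∈ range n, ((j : ℚ) * fJ J + y) / (n * fJ J)
        = ((n : ℚ) * (n - 1) / 2 * fJ J + n * y) / (n * fJ J) := by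
      rw [← sum_div, sum_add_distrib, ← sum_mul, sum_const, card_range, nsmul_eq_mul]
      congr 3
      have := Finset.sum_range_id_mul_two n
      have h4 : ((∑ i ∈ range n, i : ℕ) : ℚ) * 2 = n * ((n - 1 : ℕ) : ℚ) := by exact_mod_cast this
      rw [Nat.cast_sub hn, Nat.cast_sum] at h4
      push_cast at h4
      linarith
    rw [h3]
    field_simp
    ring
  · simp only [h1, hy, if_false, sum_const_zero]

lemma sum_multiples (g : ℕ → ℚ) {p : ℕ} (hp : 0 < p) : ∀ N : ℕ,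
    ∑ k ∈ range (N * p), (if p ∣ k then g k else 0) = ∑ k ∈ range N, g (p * k)
  | 0 => by simp
  | N + 1 => by
    rw [Nat.succ_mul, Finset.sum_range_add, sum_multiples g hp N, Finset.sum_range_succ]
    congr 1
    rw [Finset.sum_eq_single 0]
    · rw [add_zero, if_pos (Dvd.intro_left N rfl), mul_comm]
    · intro x hx hx0
      rw [if_neg]
      intro h
      have h1 := (Nat.dvd_add_right (Dvd.intro_left N rfl)).mp h
      exact absurd (Nat.le_of_dvd (Nat.pos_of_ne_zero hx0) h1) (not_le.mpr (mem_range.mp hx))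
    · intro h
      exact absurd (mem_range.mpr hp) h

lemma fJ_erase {J : Finset ℕ} {p : ℕ} (hp : p ∈ J) : fJ J = ep p * fJ (J.erase p) :=
  (Finset.mul_prod_erase J ep hp).symm

lemma C_erase {J I : Finset ℕ} (hJ : Good J) (hIJ : I ⊆ J) {p : ℕ} (hp : p ∈ J) (hpI : p ∉ I) :
    C 1 J I = (1 - (cI I p : ℚ)) * C 1 (J.erase p) I := by
  have hpp := (hJ p hp).1
  have hJ' : Good (J.erase p) := hJ.mono (erase_subset p J)
  have hIJ' : I ⊆ J.erase p := fun q hq => mem_erase.mpr ⟨fun h => hpI (h ▸ hq), hIJ hq⟩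
  obtain ⟨e, he⟩ := p_dvd_ep (p := p)
  have he0 : 0 < e := Nat.pos_of_ne_zero fun h => by
    rw [h, mul_zero] at he
    exact (ep_pos hpp).ne' he
  have hpf' : ¬ p ∣ fJ (J.erase p) := by
    have h1 : Nat.Coprime p (fJ (J.erase p)) := by
      rw [coprime_fJ_iff hJ']
      intro q hq h2
      have hqp := (Nat.prime_dvd_prime_iff_eq (hJ' q hq).1 hpp).mp h2
      exact (mem_erase.mp hq).1 hqp
    intro h2
    exact hpp.one_lt.ne' (Nat.Coprime.eq_one_of_dvd h1 h2)
  have hcop : ∀ k, Nat.Coprime k (fJ J) ↔ Nat.Coprime k (fJ (J.erase p)) ∧ ¬ p ∣ k := fun k => by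
    rw [fJ_erase hp, Nat.coprime_mul_iff_right, coprime_ep_iff hpp]
    exact and_comm
  have hf : (fJ (J.erase p) : ℚ) ≠ 0 := by
    have := fJ_pos hJ'
    positivity
  have hp0 : (p : ℚ) ≠ 0 := by
    have := hpp.pos
    positivity
  have he0' : (e : ℚ) ≠ 0 := by positivity
  have h1 : C 1 J I = C (ep p) (J.erase p) I
      - ∑ k ∈ range (e * fJ (J.erase p) * p), if p ∣ k then
        (if Nat.Coprime k (fJ (J.erase p)) then
          (cI I k : ℚ) * ((k : ℚ) / (ep p * fJ (J.erase p) : ℕ) - 1 / 2) else 0) else 0 := by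
    unfold C
    rw [one_mul, fJ_erase hp]
    have h2 : e * fJ (J.erase p) * p = ep p * fJ (J.erase p) := by rw [he]; ring
    rw [h2, ← sum_sub_distrib]
    refine sum_congr rfl fun k _ => ?_
    rw [← fJ_erase hp]
    by_cases h3 : p ∣ k
    · rw [if_neg (fun h => ((hcop k).mp h).2 h3), if_pos h3, sub_self]
    · rw [if_neg h3, sub_zero]
      exact if_congr ((hcop k).trans (and_iff_left h3)) rfl rfl
  rw [h1, C_dist (ep_pos hpp) hJ' hIJ', sum_multiples _ hpp.pos]
  have h4 : ∑ k ∈ range (e * fJ (J.erase p)), (if Nat.Coprime (p * k) (fJ (J.erase p)) then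
      (cI I ((p * k : ℕ) : ℤ) : ℚ) * (((p * k : ℕ) : ℚ) / (ep p * fJ (J.erase p) : ℕ) - 1 / 2)
        else 0) = cI I p * C e (J.erase p) I := by
    unfold C
    rw [mul_sum]
    refine sum_congr rfl fun k _ => ?_
    have h5 : Nat.Coprime (p * k) (fJ (J.erase p)) ↔ Nat.Coprime k (fJ (J.erase p)) := by
      rw [Nat.coprime_mul_iff_left]
      exact and_iff_right ((Nat.Prime.coprime_iff_not_dvd hpp).mpr hpf')
    rw [if_congr h5 rfl rfl, mul_ite, mul_zero]
    congr 1
    rw [he]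
    push_cast
    rw [cI_mul]
    push_cast
    have h6 : (p : ℚ) * k / (p * e * fJ (J.erase p)) = k / (e * fJ (J.erase p)) := by
      rw [mul_assoc (p : ℚ) e, mul_div_mul_left _ _ hp0]
    rw [h6]
    ring
  rw [h4, C_dist he0 hJ' hIJ']
  ring

/-- reduction to the primitive sum -/
lemma C_red {I : Finset ℕ} : ∀ (n : ℕ) (J : Finset ℕ), Good J → I ⊆ J → (J \ I).card = n →
    C 1 J I = (∏ p ∈ J \ I, (1 - (cI I p : ℚ))) * C 1 I I
  | 0, J, _, hIJ, hn => by
    have h1 : J \ I = ∅ := card_eq_zero.mp hn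
    have h2 : J = I := (sdiff_eq_empty_iff_subset.mp h1).antisymm hIJ
    subst h2
    simp
  | n + 1, J, hJ, hIJ, hn => by
    have h1 : (J \ I).Nonempty := card_pos.mp (by omega)
    obtain ⟨p, hp⟩ := h1
    have hp' := mem_sdiff.mp hp
    have h2 : J.erase p \ I = (J \ I).erase p := by
      ext q
      simp only [mem_sdiff, mem_erase]
      tauto
    rw [C_erase hJ hIJ hp'.1 hp'.2, C_red n (J.erase p) (hJ.mono (erase_subset p J))
      (fun q hq => mem_erase.mpr ⟨fun h => hp'.2 (h ▸ hq), hIJ hq⟩) (by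
        rw [h2, card_erase_of_mem hp, hn]; rfl), h2, ← mul_assoc,
        Finset.mul_prod_erase (J \ I) (fun p => (1 - (cI I p : ℚ))) hp]

lemma C_even {J I : Finset ℕ} (hJ : Good J) (hne : J.Nonempty) (hIJ : I ⊆ J) (hI : Even I.card) :
    C 1 J I = 0 := by
  have hf2 := two_lt_fJ hJ hne
  have hf : (fJ J : ℚ) ≠ 0 := by
    have := fJ_pos hJ
    positivity
  unfold C
  rw [one_mul, ← sum_filter]
  set s := (range (fJ J)).filter fun k => Nat.Coprime k (fJ J) with hs
  set g : ℕ → ℚ := fun k => (cI I k : ℚ) * ((k : ℚ) / (fJ J : ℕ) - 1 / 2) with hg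
  have hk : ∀ k ∈ s, 0 < k ∧ k < fJ J ∧ Nat.Coprime k (fJ J) := by
    intro k hk
    rw [hs, mem_filter, mem_range] at hk
    refine ⟨Nat.pos_of_ne_zero ?_, hk⟩
    rintro rfl
    have := hk.2
    rw [Nat.coprime_zero_left] at this
    omega
  have hmem : ∀ k ∈ s, fJ J - k ∈ s := by
    intro k h
    obtain ⟨h1, h2, h3⟩ := hk k h
    rw [hs, mem_filter, mem_range]
    refine ⟨by omega, ?_⟩
    exact (Nat.coprime_self_sub_left h2.le).mpr h3
  have h1 : ∑ k ∈ s, g k = ∑ k ∈ s, g (fJ J - k) := by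
    refine sum_nbij' (fun k => fJ J - k) (fun k => fJ J - k) hmem hmem ?_ ?_ ?_
    · intro k h
      have := (hk k h).2.1
      show fJ J - (fJ J - k) = k
      omega
    · intro k h
      have := (hk k h).2.1
      show fJ J - (fJ J - k) = k
      omega
    · intro k h
      have := (hk k h).2.1
      show g k = g (fJ J - (fJ J - k))
      congr 1
      omega
  have h2 : ∀ k ∈ s, g (fJ J - k) = - g k := by
    intro k h
    have h3 := (hk k h).2.1
    have h4 : cI I ((fJ J - k : ℕ) : ℤ) = cI I (k : ℤ) := by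
      rw [cI_congr (b := -1 * (k : ℤ)) hIJ ⟨1, by rw [Nat.cast_sub h3.le]; ring⟩, cI_mul]
      have h5 : cI I (-1) = 1 := by
        unfold cI
        rw [prod_congr rfl fun q hq => ch_neg_one (hJ q (hIJ hq)).1 (hJ q (hIJ hq)).2, prod_const,
          hI.neg_one_pow]
      rw [h5, one_mul]
    rw [hg]
    simp only
    rw [h4, Nat.cast_sub h3.le]
    field_simp
    ring
  have h3 : ∑ k ∈ s, g k = - ∑ k ∈ s, g k := by
    conv_lhs => rw [h1, sum_congr rfl h2, sum_neg_distrib]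
  have h4 : ∑ k ∈ s, g k = 0 := by linarith
  exact h4

end Pool.Agent.Lib.MP_938ce2_ag_h99t
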