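import Pool.Agent.Lib.MP_938ce2_ag_h99t.Ch
import Pool.Agent.Lib.MP_938ce2_ag_h99.Alg2

/-!
Theta sets.
-/

set_option autoImplicit false
set_option linter.style.haveILetI false
set_option linter.unusedSectionVars false

open Finset

namespace Pool.Agent.Lib.MP_938ce2_ag_h99t

open Pool.Agent.Lib.MP_938ce2_ag_h99 Pool.Agent.Lib.MP_938ce2_ag_h6

variable {m : ℕ} [NeZero m]

open Classical in
/-- the elements `c + j m / D` with `(j / p) = ε p` for all primes `p ∣ D` -/
noncomputable def thetaSet (c : ZMod m) (D : ℕ) (ε : ℕ → ℤˣ) : Multiset (ZMod m) :=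
  (univ.filter fun x : ZMod m => ∃ j : ℕ, x = c + (m / D * j : ℕ) ∧
    ∀ p, p.Prime → p ∣ D → jacobiSym j p = ε p).val

/-- allowed parameters -/
def Allowed (m : ℕ) (c : ZMod m) (D : ℕ) : Prop :=
  4 * c = 0 ∧ D ∣ m ∧ Squarefree D ∧ ∀ p, p.Prime → p ∣ D → p % 4 = 3

/-- sums of theta sets -/
def Theta (s : Multiset (ZMod m)) : Prop :=
  s ∈ AddSubmonoid.closure
    {t : Multiset (ZMod m) | ∃ c D ε, Allowed m c D ∧ t = thetaSet c D ε}

open Classical in
/-- the elements `k m / f` with `ch q k = 1` for all `q` in `J`, where `f = fJ J` -/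
noncomputable def BJ (m : ℕ) [NeZero m] (J : Finset ℕ) : Multiset (ZMod m) :=
  (univ.filter fun x : ZMod m => ∃ k : ℕ, x = (m / fJ J * k : ℕ) ∧ ∀ q ∈ J, ch q k = 1).val

private lemma T1_mem {c : ZMod m} {D : ℕ} {ε : ℕ → ℤˣ} {x : ZMod m} :
    x ∈ thetaSet c D ε ↔ ∃ j : ℕ, x = c + (m / D * j : ℕ) ∧
      ∀ p, p.Prime → p ∣ D → jacobiSym j p = ε p := by
  simp only [thetaSet, Finset.mem_val, Finset.mem_filter, Finset.mem_univ, true_and]

private lemma T1_nodup {c : ZMod m} {D : ℕ} {ε : ℕ → ℤˣ} : (thetaSet c D ε).Nodup :=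
  Finset.nodup _

private lemma T1_neg {c : ZMod m} {D : ℕ} (h : Allowed m c D) {ε : ℕ → ℤˣ} {x : ZMod m}
    (hx : x ∈ thetaSet c D ε) : -x ∈ thetaSet (-c) D (fun p => - ε p) := by
  rw [T1_mem] at hx ⊢
  obtain ⟨j, rfl, hj⟩ := hx
  have hD : 0 < D := Nat.pos_of_ne_zero fun h0 => by
    have := h.2.1
    rw [h0, zero_dvd_iff] at this
    exact NeZero.ne m this
  refine ⟨(D - 1) * j, ?_, fun p hp hpD => ?_⟩
  · have h1 : (m / D * ((D - 1) * j) : ℕ) + (m / D * j : ℕ) = m * j := by
      obtain ⟨e, he⟩ := h.2.1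
      have h2 : m / D = e := by
        rw [he, Nat.mul_div_cancel_left _ hD]
      rw [h2]
      obtain ⟨d, rfl⟩ : ∃ d, D = d + 1 := ⟨D - 1, by omega⟩
      rw [Nat.add_sub_cancel, he]
      ring
    have h3 : (((m / D * ((D - 1) * j) : ℕ) : ZMod m)) + ((m / D * j : ℕ) : ZMod m) = 0 := by
      rw [← Nat.cast_add, h1, Nat.cast_mul, ZMod.natCast_self, zero_mul]
    linear_combination -h3
  · have h1 : jacobiSym (((D - 1) * j : ℕ) : ℤ) p = jacobiSym (-1 * (j : ℤ)) p := by
      apply jacobiSym.mod_left'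
      apply Int.emod_eq_emod_iff_emod_sub_eq_zero.mpr
      apply Int.emod_eq_zero_of_dvd
      have h2 : (((D - 1) * j : ℕ) : ℤ) - -1 * (j : ℤ) = (D : ℤ) * j := by
        rw [Nat.cast_mul, Nat.cast_sub hD]
        push_cast
        ring
      rw [h2]
      exact (Int.natCast_dvd_natCast.mpr hpD).mul_right _
    have hp4 := h.2.2.2 p hp hpD
    have hodd : Odd p := hp.odd_of_ne_two (by rintro rfl; omega)
    rw [h1, jacobiSym.mul_left, jacobiSym.at_neg_one hodd, ZMod.χ₄_nat_three_mod_four hp4,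
      hj p hp hpD]
    push_cast
    ring

lemma thetaSet_neg {c : ZMod m} {D : ℕ} (h : Allowed m c D) (ε : ℕ → ℤˣ) :
    (thetaSet c D ε).map (fun x => -x) = thetaSet (-c) D (fun p => - ε p) := by
  have h' : Allowed m (-c) D := ⟨by rw [mul_neg, h.1, neg_zero], h.2⟩
  rw [Multiset.Nodup.ext (T1_nodup.map neg_injective) T1_nodup]
  intro x
  rw [Multiset.mem_map]
  constructor
  · rintro ⟨y, hy, rfl⟩
    exact T1_neg h hy
  · intro hx
    have h1 := T1_neg h' hx
    simp only [neg_neg] at h1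
    exact ⟨-x, h1, neg_neg x⟩

lemma Allowed.neg {c : ZMod m} {D : ℕ} (h : Allowed m c D) : Allowed m (-c) D := by
  refine ⟨?_, h.2⟩
  rw [mul_neg, h.1, neg_zero]

lemma Theta.neg {s : Multiset (ZMod m)} (h : Theta s) : Theta (s.map fun x => -x) := by
  unfold Theta at h
  induction h using AddSubmonoid.closure_induction with
  | mem x hx =>
    obtain ⟨c, D, ε, hA, rfl⟩ := hx
    exact AddSubmonoid.subset_closure ⟨-c, D, _, hA.neg, thetaSet_neg hA ε⟩
  | zero => exact AddSubmonoid.zero_mem _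
  | add x y _ _ hx hy =>
    rw [Multiset.map_add]
    exact AddSubmonoid.add_mem _ hx hy

/-- odd parts of sums of theta sets -/
def thetaSub (m : ℕ) [NeZero m] : AddSubgroup (ZMod m → ℤ) :=
  AddSubgroup.closure {F | ∃ c D ε, Allowed m c D ∧ F = oddPart (thetaSet c D ε)}

lemma exists_theta {F : ZMod m → ℤ} (hF : F ∈ thetaSub m) :
    ∃ s : Multiset (ZMod m), Theta s ∧ F = oddPart s := by
  unfold thetaSub at hF
  induction hF using AddSubgroup.closure_induction with
  | mem x hx =>
    obtain ⟨c, D, ε, hA, rfl⟩ := hx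
    exact ⟨_, AddSubmonoid.subset_closure ⟨c, D, ε, hA, rfl⟩, rfl⟩
  | zero => exact ⟨0, AddSubmonoid.zero_mem _, oddPart_zero.symm⟩
  | add x y _ _ hx hy =>
    obtain ⟨s, hs, rfl⟩ := hx
    obtain ⟨t, ht, rfl⟩ := hy
    exact ⟨s + t, AddSubmonoid.add_mem _ hs ht, (oddPart_add s t).symm⟩
  | neg x _ hx =>
    obtain ⟨s, hs, rfl⟩ := hx
    exact ⟨_, hs.neg, (oddPart_neg s).symm⟩

/-- a theta set which contains zero is the set with the single element zero -/
private lemma T1_zero {c : ZMod m} {D : ℕ} (h : Allowed m c D) {ε : ℕ → ℤˣ}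
    (h0 : (0 : ZMod m) ∈ thetaSet c D ε) {x : ZMod m} (hx : x ∈ thetaSet c D ε) : x = 0 := by
  have hD : 0 < D := Nat.pos_of_ne_zero fun h0 => by
    have := h.2.1
    rw [h0, zero_dvd_iff] at this
    exact NeZero.ne m this
  rw [T1_mem] at h0 hx
  obtain ⟨j, hj0, hj⟩ := h0
  have hD1 : D = 1 := by
    by_contra hne
    obtain ⟨p, hp, hpD⟩ := Nat.exists_prime_and_dvd hne
    have h1 : ((m / D * (4 * j) : ℕ) : ZMod m) = 0 := by
      have h2 : (4 : ZMod m) * (c + (m / D * j : ℕ)) = 0 := by rw [← hj0, mul_zero]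
      rw [mul_add, h.1, zero_add] at h2
      rw [← h2]
      push_cast
      ring
    rw [ZMod.natCast_eq_zero_iff] at h1
    obtain ⟨e, he⟩ := h.2.1
    have he0 : 0 < e := Nat.pos_of_ne_zero fun h0 => NeZero.ne m (by rw [he, h0, mul_zero])
    have h2 : m / D = e := by
      rw [he, Nat.mul_div_cancel_left _ hD]
    have h3 : e * D ∣ e * (4 * j) := by
      rw [← h2]
      have h4 : m / D * D = m := Nat.div_mul_cancel h.2.1
      rw [h4]
      exact h1
    have h4 : D ∣ 4 * j := Nat.dvd_of_mul_dvd_mul_left he0 h3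
    have h5 : p ∣ 4 * j := hpD.trans h4
    have hp4 := h.2.2.2 p hp hpD
    have h6 : p ∣ j := by
      rcases (Nat.Prime.dvd_mul hp).mp h5 with h7 | h7
      · have h8 : p ∣ 2 ^ 2 := h7
        have h9 := (Nat.prime_dvd_prime_iff_eq hp Nat.prime_two).mp (hp.dvd_of_dvd_pow h8)
        omega
      · exact h7
    have h7 := hj p hp hpD
    have : Fact p.Prime := ⟨hp⟩
    rw [← jacobiSym.legendreSym.to_jacobiSym, legendreSym, Int.cast_natCast,
      (ZMod.natCast_eq_zero_iff j p).mpr h6, quadraticChar_zero] at h7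
    exact (ε p).ne_zero h7.symm
  subst hD1
  obtain ⟨i, rfl, -⟩ := hx
  have h1 : ∀ i : ℕ, ((m / 1 * i : ℕ) : ZMod m) = 0 := by
    intro i
    rw [Nat.div_one, Nat.cast_mul, ZMod.natCast_self, zero_mul]
  rw [h1, add_zero]
  rw [h1, add_zero] at hj0
  exact hj0.symm

private lemma T1_filter {s : Multiset (ZMod m)} (h : Theta s) :
    Theta (s.filter fun x => x ≠ 0) := by
  unfold Theta at h
  induction h using AddSubmonoid.closure_induction with
  | mem x hx =>
    obtain ⟨c, D, ε, hA, rfl⟩ := hx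
    by_cases h0 : (0 : ZMod m) ∈ thetaSet c D ε
    · have h1 : (thetaSet c D ε).filter (fun x => x ≠ 0) = 0 := by
        rw [Multiset.filter_eq_nil]
        intro x hx
        rw [not_not]
        exact T1_zero hA h0 hx
      rw [h1]
      exact AddSubmonoid.zero_mem _
    · have h1 : (thetaSet c D ε).filter (fun x => x ≠ 0) = thetaSet c D ε := by
        rw [Multiset.filter_eq_self]
        rintro x hx rfl
        exact h0 hx
      rw [h1]
      exact AddSubmonoid.subset_closure ⟨c, D, ε, hA, rfl⟩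
  | zero => exact AddSubmonoid.zero_mem _
  | add x y _ _ hx hy =>
    rw [Multiset.filter_add]
    exact AddSubmonoid.add_mem _ hx hy

private lemma T1_oddPart_filter (s : Multiset (ZMod m)) :
    oddPart (s.filter fun x => x ≠ 0) = oddPart s := by
  funext a
  simp only [oddPart]
  by_cases ha : a = 0
  · subst ha
    rw [neg_zero, sub_self, sub_self]
  · rw [Multiset.count_filter_of_pos (p := fun x : ZMod m => x ≠ 0) ha,
      Multiset.count_filter_of_pos (p := fun x : ZMod m => x ≠ 0) (neg_ne_zero.mpr ha)]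

/-- an element of `thetaSub` satisfying the Tate condition comes from a Tate multiset which is a
sum of theta sets -/
theorem mem_YY_of_theta (h2 : 2 ∣ m) {F : ZMod m → ℤ} (hF : F ∈ thetaSub m) (hT : TateF F)
    {G : Multiset (ZMod m) → Prop} (hG : ∀ s, Theta s → G s) : F ∈ YY G := by
  obtain ⟨s, hs, rfl⟩ := exists_theta hF
  have hs1 := T1_filter hs
  have ho1 := T1_oddPart_filter s
  set s' := s.filter fun x => x ≠ 0 with hs'
  have h0 : (0 : ZMod m) ∉ s' := by
    rw [hs', Multiset.mem_filter]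
    rintro ⟨-, h⟩
    exact h rfl
  by_cases hev : Even s'.card
  · exact AddSubgroup.subset_closure ⟨s', isTate_iff.mpr ⟨h0, hev, by rw [ho1]; exact hT⟩,
      Or.inr (hG _ hs1), ho1.symm⟩
  · have hm0 : 0 < m := Nat.pos_of_ne_zero (NeZero.ne m)
    have hA : Allowed m ((m / 2 : ℕ) : ZMod m) 1 := by
      refine ⟨?_, one_dvd _, squarefree_one, fun p hp hp1 => ?_⟩
      · have h3 : (4 * (m / 2) : ℕ) = 2 * m := by omega
        have h4 : (4 : ZMod m) * ((m / 2 : ℕ) : ZMod m) = ((4 * (m / 2) : ℕ) : ZMod m) := by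
          push_cast
          ring
        rw [h4, h3, Nat.cast_mul, ZMod.natCast_self, mul_zero]
      · exact absurd hp1 hp.not_dvd_one
    have hset : thetaSet ((m / 2 : ℕ) : ZMod m) 1 1 = {((m / 2 : ℕ) : ZMod m)} := by
      rw [Multiset.Nodup.ext T1_nodup (Multiset.nodup_singleton _)]
      intro x
      rw [T1_mem, Multiset.mem_singleton]
      constructor
      · rintro ⟨j, rfl, -⟩
        rw [Nat.div_one, Nat.cast_mul m j, ZMod.natCast_self, zero_mul, add_zero]
      · rintro rfl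
        refine ⟨0, ?_, fun p hp hp1 => absurd hp1 hp.not_dvd_one⟩
        rw [mul_zero, Nat.cast_zero, add_zero]
    have hhalf : ((m / 2 : ℕ) : ZMod m) = - ((m / 2 : ℕ) : ZMod m) := by
      rw [eq_neg_iff_add_eq_zero, ← Nat.cast_add]
      have h3 : m / 2 + m / 2 = m := by omega
      rw [h3, ZMod.natCast_self]
    have hne : ((m / 2 : ℕ) : ZMod m) ≠ 0 := by
      rw [Ne, ZMod.natCast_eq_zero_iff]
      intro h
      have := Nat.le_of_dvd (by omega) h
      omega
    have ho2 : oddPart (s' + {((m / 2 : ℕ) : ZMod m)}) = oddPart s := by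
      rw [oddPart_add, oddPart_half hhalf, add_zero, ho1]
    have hth : Theta (s' + {((m / 2 : ℕ) : ZMod m)}) := by
      refine AddSubmonoid.add_mem _ hs1 (AddSubmonoid.subset_closure ?_)
      exact ⟨_, 1, 1, hA, hset.symm⟩
    refine AddSubgroup.subset_closure ⟨s' + {((m / 2 : ℕ) : ZMod m)}, isTate_iff.mpr
      ⟨?_, ?_, by rw [ho2]; exact hT⟩, Or.inr (hG _ hth), ho2.symm⟩
    · rw [Multiset.mem_add, Multiset.mem_singleton]
      rintro (h | h)
      · exact h0 h
      · exact hne h.symm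
    · rw [Multiset.card_add, Multiset.card_singleton]
      exact (Nat.not_even_iff_odd.mp hev).add_one

private lemma T1_memBJ {J : Finset ℕ} {x : ZMod m} :
    x ∈ BJ m J ↔ ∃ k : ℕ, x = (m / fJ J * k : ℕ) ∧ ∀ q ∈ J, ch q k = 1 := by
  simp only [BJ, Finset.mem_val, Finset.mem_filter, Finset.mem_univ, true_and]

private lemma T1_nodupBJ {J : Finset ℕ} : (BJ m J).Nodup := Finset.nodup _

private lemma T1_prod {J : Finset ℕ} (h2 : 2 ∉ J) :
    fJ J = ∏ p ∈ J, p := by
  unfold fJ
  refine prod_congr rfl fun p hp => ?_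
  unfold ep
  rw [if_neg]
  rintro rfl
  exact h2 hp

private lemma T1_dvd {J : Finset ℕ} (hJ : Good J) (h2 : 2 ∉ J) {p : ℕ} (hp : p.Prime) :
    p ∣ fJ J ↔ p ∈ J := by
  rw [T1_prod h2, Prime.dvd_finsetProd_iff hp.prime]
  constructor
  · rintro ⟨q, hq, hpq⟩
    rwa [(Nat.prime_dvd_prime_iff_eq hp (hJ q hq).1).mp hpq]
  · intro h
    exact ⟨p, h, dvd_rfl⟩

private lemma T1_squarefree {J : Finset ℕ} (hJ : Good J) (h2 : 2 ∉ J) : Squarefree (fJ J) := by
  rw [T1_prod h2]
  refine Finset.squarefree_prod_of_pairwise_isCoprime (fun p hp q hq hpq => ?_)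
    fun p hp => (hJ p hp).1.prime.squarefree
  have h1 := (Nat.coprime_primes (hJ p hp).1 (hJ q hq).1).mpr hpq
  exact Nat.coprime_iff_isRelPrime.mp h1

private lemma T1_four {p : ℕ} (hp : p.Prime) (hp2 : p ≠ 2) (a : ℤ) :
    jacobiSym (4 * a) p = jacobiSym a p := by
  have h1 : jacobiSym 4 p = 1 := by
    have h2 : Int.gcd 2 p = 1 := by
      have h3 := (Nat.coprime_primes Nat.prime_two hp).mpr (Ne.symm hp2)
      exact h3
    have h3 := jacobiSym.sq_one' h2
    norm_num at h3
    exact h3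
  rw [jacobiSym.mul_left, h1, one_mul]

private lemma T1_congr {p : ℕ} {a b : ℤ} (h : (p : ℤ) ∣ a - b) :
    jacobiSym a p = jacobiSym b p := by
  apply jacobiSym.mod_left'
  exact Int.emod_eq_emod_iff_emod_sub_eq_zero.mpr (Int.emod_eq_zero_of_dvd h)

private lemma T1_ch_two {k : ℕ} : ch 2 (k : ℤ) = 1 ↔ k % 4 = 1 := by
  unfold ch
  rw [if_pos rfl, Int.cast_natCast, ZMod.χ₄_nat_eq_if_mod_four]
  constructor
  · intro h
    split_ifs at h with h1 h2
    all_goals first | exact h2 | omega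
  · intro h
    rw [if_neg (by omega), if_pos h]

private lemma T1_ch {p : ℕ} (hp2 : p ≠ 2) (a : ℤ) : ch p a = jacobiSym a p := by
  unfold ch
  rw [if_neg hp2]

/-- the sets `BJ` are theta sets -/
theorem oddPart_BJ_mem {J : Finset ℕ} (hJ : Good J) (hm : fJ J ∣ m) :
    oddPart (BJ m J) ∈ thetaSub m := by
  by_cases h2 : 2 ∈ J
  · have hG' : Good (J.erase 2) := hJ.mono (erase_subset _ _)
    have h2' : 2 ∉ J.erase 2 := notMem_erase _ _
    have hf : fJ J = 4 * fJ (J.erase 2) := by
      rw [fJ_erase h2]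
      rfl
    have hprime : ∀ p, p.Prime → p ∣ fJ (J.erase 2) → p ∈ J ∧ p ≠ 2 := by
      intro p hp hpD
      have h3 := (T1_dvd hG' h2' hp).mp hpD
      exact ⟨mem_of_mem_erase h3, ne_of_mem_erase h3⟩
    have hsq := T1_squarefree hG' h2'
    have hDpos : 0 < fJ (J.erase 2) := fJ_pos hG'
    have hmem : ∀ q ∈ J, q ≠ 2 → q ∣ fJ (J.erase 2) := by
      intro q hq hq2
      exact (T1_dvd hG' h2' (hJ q hq).1).mpr (mem_erase.mpr ⟨hq2, hq⟩)
    generalize fJ (J.erase 2) = D at hf hprime hsq hDpos hmem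
    have hDodd : D % 2 = 1 := by
      by_contra h
      have h3 : 2 ∣ D := by omega
      exact (hprime 2 Nat.prime_two h3).2 rfl
    have hDD : (D * D) % 4 = 1 := by
      have h3 : D % 4 = 1 ∨ D % 4 = 3 := by omega
      rcases h3 with h3 | h3 <;> simp [Nat.mul_mod, h3]
    obtain ⟨e, he⟩ := hm
    rw [hf] at he
    have hm1 : m / fJ J = e := by
      rw [hf, he, Nat.mul_div_cancel_left _ (by omega)]
    have hm2 : m / D = 4 * e := by
      rw [he, show 4 * D * e = D * (4 * e) by ring, Nat.mul_div_cancel_left _ hDpos]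
    have hmz : ∀ n : ℕ, ((4 * D * e * n : ℕ) : ZMod m) = 0 := by
      intro n
      rw [← he, Nat.cast_mul, ZMod.natCast_self, zero_mul]
    have hA : Allowed m ((D * D * e : ℕ) : ZMod m) D := by
      refine ⟨?_, ⟨4 * e, by rw [he]; ring⟩, hsq, fun p hp hpD => ?_⟩
      · have h3 : (4 : ZMod m) * ((D * D * e : ℕ) : ZMod m) = ((4 * D * e * D : ℕ) : ZMod m) := by
          push_cast
          ring
        rw [h3, hmz]
      · obtain ⟨h3, h4⟩ := hprime p hp hpD
        exact (hJ p h3).2.resolve_left h4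
    have hset : BJ m J = thetaSet ((D * D * e : ℕ) : ZMod m) D 1 := by
      rw [Multiset.Nodup.ext T1_nodupBJ T1_nodup]
      intro x
      rw [T1_memBJ, T1_mem, hm1, hm2]
      constructor
      · rintro ⟨k, rfl, hk⟩
        have hk4 : k % 4 = 1 := T1_ch_two.mp (hk 2 h2)
        obtain ⟨j, hj⟩ : ∃ j, k + 3 * (D * D) = 4 * j := ⟨(k + 3 * (D * D)) / 4, by omega⟩
        refine ⟨j, ?_, fun p hp hpD => ?_⟩
        · have h3 : D * D * e + 4 * e * j = e * k + 4 * D * e * D := by
            have h4 : 4 * e * j = e * (4 * j) := by ring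
            rw [h4, ← hj]
            ring
          rw [← Nat.cast_add, h3, Nat.cast_add, hmz, add_zero]
        · obtain ⟨h3, h4⟩ := hprime p hp hpD
          have h5 := hk p h3
          rw [T1_ch h4] at h5
          rw [← T1_four hp h4, T1_congr (b := (k : ℤ)), h5]
          · rfl
          · have h6 : (4 * (j : ℤ)) - k = (D : ℤ) * (3 * D) := by
              have h7 : ((k + 3 * (D * D) : ℕ) : ℤ) = ((4 * j : ℕ) : ℤ) := by rw [hj]
              push_cast at h7
              linarith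
            rw [h6]
            exact (Int.natCast_dvd_natCast.mpr hpD).mul_right _
      · rintro ⟨j, rfl, hj⟩
        refine ⟨D * D + 4 * j, ?_, fun q hq => ?_⟩
        · rw [← Nat.cast_add]
          congr 1
          ring
        · by_cases hq2 : q = 2
          · subst hq2
            rw [T1_ch_two]
            omega
          · have hqp := (hJ q hq).1
            rw [T1_ch hq2, T1_congr (b := 4 * (j : ℤ)), T1_four hqp hq2,
              hj q hqp (hmem q hq hq2)]
            · rfl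
            · have h6 : ((D * D + 4 * j : ℕ) : ℤ) - 4 * (j : ℤ) = (D : ℤ) * D := by
                push_cast
                ring
              rw [h6]
              exact (Int.natCast_dvd_natCast.mpr (hmem q hq hq2)).mul_right _
    rw [hset]
    exact AddSubgroup.subset_closure ⟨_, _, _, hA, rfl⟩
  · have hA : Allowed m (0 : ZMod m) (fJ J) := by
      refine ⟨mul_zero _, hm, T1_squarefree hJ h2, fun p hp hpD => ?_⟩
      have h3 := (T1_dvd hJ h2 hp).mp hpD
      exact (hJ p h3).2.resolve_left (by rintro rfl; exact h2 h3)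
    have hset : BJ m J = thetaSet (0 : ZMod m) (fJ J) 1 := by
      rw [Multiset.Nodup.ext T1_nodupBJ T1_nodup]
      intro x
      rw [T1_memBJ, T1_mem]
      refine exists_congr fun k => ?_
      rw [zero_add]
      refine and_congr_right fun _ => ?_
      constructor
      · intro h p hp hpD
        have h3 := (T1_dvd hJ h2 hp).mp hpD
        have h4 := h p h3
        rw [T1_ch (by rintro rfl; exact h2 h3)] at h4
        rw [h4]
        rfl
      · intro h q hq
        rw [T1_ch (by rintro rfl; exact h2 hq), h q (hJ q hq).1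
          ((T1_dvd hJ h2 (hJ q hq).1).mpr hq)]
        rfl
    rw [hset]
    exact AddSubgroup.subset_closure ⟨_, _, _, hA, rfl⟩

end Pool.Agent.Lib.MP_938ce2_ag_h99t
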