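import Pool.Agent.Lib.MP_938ce2_ag_h99t.Span
import Pool.Agent.Lib.MP_938ce2_ag_h99t.Theta

/-!
The exceptional class given by theta sets.
-/

set_option autoImplicit false
set_option linter.style.haveILetI false
set_option linter.unusedSectionVars false

open Finset

namespace Pool.Agent.Lib.MP_938ce2_ag_h99t

open Pool.Agent.Lib.MP_938ce2_ag_h99 Pool.Agent.Lib.MP_938ce2_ag_h6

variable {m : ℕ} [NeZero m]

open Classical in
/-- the sign of a unit -/
noncomputable def sg (t : (ZMod m)ˣ) (p : ℕ) : ℤˣ := if ch p ((t : ZMod m).val : ℤ) = 1 then 1 else -1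

open Classical in
/-- the points `k m / f` with prescribed signs -/
noncomputable def BE (m : ℕ) [NeZero m] (J : Finset ℕ) (ε : ℕ → ℤˣ) : Finset (ZMod m) :=
  univ.filter fun x : ZMod m => ∃ k : ℕ, x = (m / fJ J * k : ℕ) ∧ ∀ q ∈ J, ch q k = ε q

lemma mem_BE {J : Finset ℕ} {ε : ℕ → ℤˣ} {x : ZMod m} :
    x ∈ BE m J ε ↔ ∃ k : ℕ, x = (m / fJ J * k : ℕ) ∧ ∀ q ∈ J, ch q k = ε q := by
  classical
  unfold BE
  rw [mem_filter]
  exact and_iff_right (mem_univ x)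

lemma BJ_eq (J : Finset ℕ) : BJ m J = (BE m J 1).val := by
  unfold BJ BE
  congr 1

lemma div_mul_mod {f : ℕ} (hf : f ∣ m) (k : ℕ) :
    ((m / f * (k % f) : ℕ) : ZMod m) = ((m / f * k : ℕ) : ZMod m) := by
  have h1 : m / f * k = m / f * (k % f) + m * (k / f) := by
    conv_lhs => rw [← Nat.mod_add_div k f]
    rw [mul_add, ← mul_assoc, Nat.div_mul_cancel hf]
  rw [h1, Nat.cast_add, Nat.cast_mul m, ZMod.natCast_self, zero_mul, add_zero]

lemma ch_mod {J : Finset ℕ} {q : ℕ} (hq : q ∈ J) (k : ℕ) :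
    ch q ((k % fJ J : ℕ) : ℤ) = ch q (k : ℤ) := by
  apply ch_congr
  have h1 : (fJ J : ℤ) ∣ ((k % fJ J : ℕ) : ℤ) - (k : ℤ) := by
    refine ⟨-((k / fJ J : ℕ) : ℤ), ?_⟩
    have h2 := Nat.mod_add_div k (fJ J)
    have h3 : ((k % fJ J : ℕ) : ℤ) + (fJ J : ℤ) * ((k / fJ J : ℕ) : ℤ) = k := by exact_mod_cast h2
    linarith
  exact (Int.natCast_dvd_natCast.mpr (ep_dvd_fJ hq)).trans h1

lemma val_lt' {f : ℕ} (hf : f ∣ m) {k : ℕ} (hk : k < f) :
    ((m / f * k : ℕ) : ZMod m).val = m / f * k := by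
  apply ZMod.val_natCast_of_lt
  calc m / f * k < m / f * f := by
        apply Nat.mul_lt_mul_of_pos_left hk
        exact Nat.div_pos (Nat.le_of_dvd (Nat.pos_of_ne_zero (NeZero.ne m)) hf) (by omega)
    _ = m := Nat.div_mul_cancel hf

lemma fJ_pos' {J : Finset ℕ} (hm : fJ J ∣ m) : 0 < fJ J :=
  Nat.pos_of_ne_zero fun h => NeZero.ne m (Nat.eq_zero_of_zero_dvd (h ▸ hm))

lemma div_pos' {f : ℕ} (hm : f ∣ m) : 0 < m / f := by
  have h1 := Nat.pos_of_ne_zero (NeZero.ne m)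
  exact Nat.div_pos (Nat.le_of_dvd h1 hm) (Nat.pos_of_dvd_of_pos hm h1)

/-- normal form of the elements of `BE` -/
lemma exists_of_mem_BE {J : Finset ℕ} (hm : fJ J ∣ m) {ε : ℕ → ℤˣ} {x : ZMod m}
    (hx : x ∈ BE m J ε) : ∃ k < fJ J, x = (m / fJ J * k : ℕ) ∧ ∀ q ∈ J, ch q k = ε q := by
  obtain ⟨k, hk, h⟩ := mem_BE.mp hx
  refine ⟨k % fJ J, Nat.mod_lt _ (fJ_pos' hm), ?_, ?_⟩
  · rw [div_mul_mod hm, hk]
  · intro q hq
    rw [ch_mod hq, h q hq]

lemma mem_BE_iff {J : Finset ℕ} (hm : fJ J ∣ m) {ε : ℕ → ℤˣ} {k : ℕ} :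
    ((m / fJ J * k : ℕ) : ZMod m) ∈ BE m J ε ↔ ∀ q ∈ J, ch q k = ε q := by
  constructor
  · intro h
    obtain ⟨k', hk', h1, h2⟩ := exists_of_mem_BE hm h
    have h3 : m / fJ J * (k % fJ J) = m / fJ J * k' := by
      rw [← val_lt' hm hk', ← h1, ← div_mul_mod hm, val_lt' hm (Nat.mod_lt _ (fJ_pos' hm))]
    have h4 := Nat.eq_of_mul_eq_mul_left (div_pos' hm) h3
    intro q hq
    rw [← ch_mod hq k, h4, h2 q hq]
  · intro h
    exact mem_BE.mpr ⟨k, rfl, h⟩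

lemma sum_BE {J : Finset ℕ} (hm : fJ J ∣ m) (ε : ℕ → ℤˣ) :
    ∑ x ∈ BE m J ε, ((x.val : ℚ) / m - 1 / 2) = Sf J ε := by
  have hd := div_pos' hm
  unfold Sf
  refine sum_nbij' (fun x => x.val / (m / fJ J)) (fun k => ((m / fJ J * k : ℕ) : ZMod m))
    ?_ ?_ ?_ ?_ ?_
  · intro x hx
    obtain ⟨k, hk, h1, h2⟩ := exists_of_mem_BE hm hx
    show x.val / (m / fJ J) ∈ _
    rw [h1, val_lt' hm hk, Nat.mul_div_cancel_left _ hd]
    exact mem_filter.mpr ⟨mem_range.mpr hk, h2⟩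
  · intro k hk
    exact (mem_BE_iff hm).mpr (mem_filter.mp hk).2
  · intro x hx
    obtain ⟨k, hk, h1, h2⟩ := exists_of_mem_BE hm hx
    show ((m / fJ J * (x.val / (m / fJ J)) : ℕ) : ZMod m) = x
    rw [h1, val_lt' hm hk, Nat.mul_div_cancel_left _ hd]
  · intro k hk
    have hk' := mem_range.mp (mem_filter.mp hk).1
    show ((m / fJ J * k : ℕ) : ZMod m).val / (m / fJ J) = k
    rw [val_lt' hm hk', Nat.mul_div_cancel_left _ hd]
  · intro x hx
    obtain ⟨k, hk, h1, h2⟩ := exists_of_mem_BE hm hx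
    rw [h1, val_lt' hm hk, Nat.mul_div_cancel_left _ hd]
    congr 1
    have h3 : (m : ℚ) = (m / fJ J : ℕ) * (fJ J : ℕ) := by
      rw [← Nat.cast_mul, Nat.div_mul_cancel hm]
    have h4 : ((m / fJ J : ℕ) : ℚ) ≠ 0 := by positivity
    conv_lhs => rw [h3]
    rw [Nat.cast_mul, mul_div_mul_left _ _ h4]

lemma ch_val_unit {J : Finset ℕ} (hJ : Good J) (hm : fJ J ∣ m) (t : (ZMod m)ˣ) {q : ℕ}
    (hq : q ∈ J) : ch q ((t : ZMod m).val : ℤ) = sg t q := by
  have h1 : ch q ((t : ZMod m).val : ℤ) = 1 ∨ ch q ((t : ZMod m).val : ℤ) = -1 := by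
    apply ch_sign_of_coprime hJ _ hq
    exact Nat.Coprime.coprime_dvd_right hm (ZMod.val_coe_unit_coprime t)
  unfold sg
  rcases h1 with h1 | h1
  · rw [if_pos h1, h1]
    rfl
  · rw [if_neg (by rw [h1]; norm_num), h1]
    rfl

lemma mul_mem_BE {J : Finset ℕ} (hJ : Good J) (hm : fJ J ∣ m) {ε : ℕ → ℤˣ} (t : (ZMod m)ˣ)
    {x : ZMod m} (hx : x ∈ BE m J ε) : (t : ZMod m) * x ∈ BE m J (fun q => sg t q * ε q) := by
  obtain ⟨k, hk, h1, h2⟩ := exists_of_mem_BE hm hx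
  have h3 : (t : ZMod m) * x = ((m / fJ J * ((t : ZMod m).val * k) : ℕ) : ZMod m) := by
    rw [h1]
    conv_lhs => rw [← ZMod.natCast_zmod_val (t : ZMod m)]
    push_cast
    ring
  rw [h3, mem_BE_iff hm]
  intro q hq
  push_cast
  rw [ch_mul, ch_val_unit hJ hm t hq, h2 q hq]

lemma sg_inv {J : Finset ℕ} (hJ : Good J) (hm : fJ J ∣ m) (t : (ZMod m)ˣ) {q : ℕ} (hq : q ∈ J) :
    sg t⁻¹ q * sg t q = 1 := by
  have h1 : (sg t⁻¹ q : ℤ) * (sg t q : ℤ) = 1 := by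
    rw [← ch_val_unit hJ hm t hq, ← ch_val_unit hJ hm t⁻¹ hq, ← ch_mul]
    have h2 : ch q (((t⁻¹ : (ZMod m)ˣ) : ZMod m).val * (t : ZMod m).val : ℤ) = ch q 1 := by
      apply ch_congr
      have h3 : ((m : ℕ) : ℤ) ∣ (((t⁻¹ : (ZMod m)ˣ) : ZMod m).val * (t : ZMod m).val : ℤ) - 1 := by
        rw [← ZMod.intCast_zmod_eq_zero_iff_dvd]
        push_cast
        rw [ZMod.natCast_zmod_val, ZMod.natCast_zmod_val, Units.inv_mul, sub_self]
      exact (Int.natCast_dvd_natCast.mpr ((ep_dvd_fJ hq).trans hm)).trans h3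
    rw [h2]
    unfold ch
    split_ifs
    · simp
    · exact jacobiSym.one_left q
  rw [← Units.val_mul] at h1
  exact Units.val_eq_one.mp h1

lemma BE_congr {J : Finset ℕ} {ε ε' : ℕ → ℤˣ} (h : ∀ q ∈ J, ε q = ε' q) :
    BE m J ε = BE m J ε' := by
  ext x
  rw [mem_BE, mem_BE]
  refine exists_congr fun k => and_congr_right fun _ => ?_
  exact forall₂_congr fun q hq => by rw [h q hq]

lemma zero_notMem_BE {J : Finset ℕ} (hJ : Good J) (hne : J.Nonempty) (hm : fJ J ∣ m)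
    {ε : ℕ → ℤˣ} : (0 : ZMod m) ∉ BE m J ε := by
  intro h
  obtain ⟨q, hq⟩ := hne
  have h1 : (0 : ZMod m) = ((m / fJ J * 0 : ℕ) : ZMod m) := by simp
  rw [h1, mem_BE_iff hm] at h
  have h2 := h q hq
  rw [ch_zero (hJ q hq).1 (dvd_zero q)] at h2
  rcases Int.units_eq_one_or (ε q) with h3 | h3 <;> rw [h3] at h2 <;> norm_num at h2

/-- the Tate sum of `BJ` -/
theorem sum_BJ {J : Finset ℕ} (hJ : Good J) (hne : J.Nonempty) (hm : fJ J ∣ m) (t : (ZMod m)ˣ) :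
    ((∑ a, oddPart (BJ m J) a * (((t : ZMod m) * a).val : ℤ) : ℤ) : ℚ) = 2 * m * Sf J (sg t) := by
  rw [sum_oddPart_mul (BJ m J) fun a => (((t : ZMod m) * a).val : ℤ), BJ_eq]
  show ((∑ a ∈ BE m J 1, ((((t : ZMod m) * a).val : ℤ) - (((t : ZMod m) * -a).val : ℤ)) : ℤ) : ℚ) = _
  have h1 : ∀ a ∈ BE m J 1, ((((((t : ZMod m) * a).val : ℤ) - (((t : ZMod m) * -a).val : ℤ)) : ℤ) : ℚ)
      = 2 * m * ((((t : ZMod m) * a).val : ℚ) / m - 1 / 2) := by
    intro a ha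
    have ha0 : a ≠ 0 := fun h => zero_notMem_BE hJ hne hm (h ▸ ha)
    have hta : (t : ZMod m) * a ≠ 0 := by
      intro h
      apply ha0
      have := congrArg (fun z => ((t⁻¹ : (ZMod m)ˣ) : ZMod m) * z) h
      simpa using this
    rw [mul_neg, neg_val_sum _ hta, Nat.cast_sub (ZMod.val_lt _).le]
    have hm0 : (m : ℚ) ≠ 0 := by
      have := NeZero.ne m
      positivity
    push_cast
    field_simp
    ring
  rw [Int.cast_sum, sum_congr rfl h1, ← mul_sum, ← sum_BE hm (sg t)]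
  congr 1
  refine sum_nbij' (fun a => (t : ZMod m) * a) (fun a => ((t⁻¹ : (ZMod m)ˣ) : ZMod m) * a)
    ?_ ?_ ?_ ?_ ?_
  · intro a ha
    have h2 := mul_mem_BE hJ hm t ha
    rwa [BE_congr (ε' := sg t) (fun q _ => by simp)] at h2
  · intro a ha
    have h2 := mul_mem_BE hJ hm t⁻¹ ha
    rwa [BE_congr (ε' := 1) (fun q hq => sg_inv hJ hm t hq)] at h2
  · intro a _
    show ((t⁻¹ : (ZMod m)ˣ) : ZMod m) * ((t : ZMod m) * a) = a
    rw [← mul_assoc, Units.inv_mul, one_mul]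
  · intro a _
    show (t : ZMod m) * (((t⁻¹ : (ZMod m)ˣ) : ZMod m) * a) = a
    rw [← mul_assoc, Units.mul_inv, one_mul]
  · intro a _
    rfl

lemma ch_neg {p : ℕ} (hp : p.Prime) (h : p = 2 ∨ p % 4 = 3) (k : ℤ) : ch p (-k) = - ch p k := by
  rw [← neg_one_mul, ch_mul, ch_neg_one hp h, neg_one_mul]

lemma ch_neg_val {f p : ℕ} [NeZero f] (hp : p.Prime) (h : p = 2 ∨ p % 4 = 3) (hpf : ep p ∣ f)
    {x : ZMod f} (hx : x ≠ 0) : ch p ((-x).val : ℤ) = - ch p (x.val : ℤ) := by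
  rw [← ch_neg hp h]
  apply ch_congr
  haveI : NeZero x := ⟨hx⟩
  rw [ZMod.val_neg_of_ne_zero, Nat.cast_sub (ZMod.val_lt x).le]
  have h1 : ((f : ℤ) - (x.val : ℤ)) - -(x.val : ℤ) = f := by ring
  rw [h1]
  exact Int.natCast_dvd_natCast.mpr hpf

/-- values of `BJ` at the points of order `fJ J` -/
theorem BJ_top {T : Finset ℕ} (hT : Good T) (hne : T.Nonempty) {f : ℕ} (hf : f ∣ m)
    (hfT : f = fJ T) (u : (ZMod f)ˣ) :
    oddPart (BJ m T) (jj hf (u : ZMod f))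
      = ∏ p ∈ T, (if ch p ((u : ZMod f).val : ℤ) = 1 then 1 else 0)
        - ∏ p ∈ T, (1 - (if ch p ((u : ZMod f).val : ℤ) = 1 then 1 else 0)) := by
  subst hfT
  haveI : NeZero (fJ T) := ⟨f_ne_zero hf⟩
  have hsign : ∀ p ∈ T, ch p ((u : ZMod (fJ T)).val : ℤ) = 1 ∨ ch p ((u : ZMod (fJ T)).val : ℤ) = -1 :=
    fun p hp => ch_sign_of_coprime hT (ZMod.val_coe_unit_coprime u) hp
  have hu0 : (u : ZMod (fJ T)) ≠ 0 := by
    intro h
    have h1 := ZMod.val_coe_unit_coprime u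
    rw [h, ZMod.val_zero, Nat.coprime_zero_left] at h1
    have := two_lt_fJ hT hne
    omega
  have hjj : ∀ x : ZMod (fJ T), jj hf x = ((m / fJ T * x.val : ℕ) : ZMod m) := by
    intro x
    conv_lhs => rw [← ZMod.natCast_zmod_val x]
    exact jj_natCast hf x.val
  have h1 : ∀ x : ZMod (fJ T), ((BJ m T).count (jj hf x) : ℤ)
      = if ∀ p ∈ T, ch p (x.val : ℤ) = 1 then 1 else 0 := by
    intro x
    classical
    have h2 : jj hf x ∈ BE m T 1 ↔ ∀ p ∈ T, ch p (x.val : ℤ) = 1 := by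
      rw [hjj, mem_BE_iff hf]
      rfl
    rw [BJ_eq, Multiset.count_eq_of_nodup (BE m T 1).nodup]
    have h3 : jj hf x ∈ (BE m T 1).val ↔ ∀ p ∈ T, ch p (x.val : ℤ) = 1 := h2
    rw [if_congr h3 rfl rfl]
    split_ifs <;> rfl
  unfold oddPart
  rw [← map_neg, h1, h1]
  have h2 : (∀ p ∈ T, ch p ((-(u : ZMod (fJ T))).val : ℤ) = 1)
      ↔ ∀ p ∈ T, ¬ ch p ((u : ZMod (fJ T)).val : ℤ) = 1 := by
    refine forall₂_congr fun p hp => ?_
    rw [ch_neg_val (hT p hp).1 (hT p hp).2 (ep_dvd_fJ hp) hu0]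
    rcases hsign p hp with h3 | h3 <;> rw [h3] <;> norm_num
  congr 1
  · rw [prod_ite_zero]
    simp
  · rw [if_congr h2 rfl rfl]
    have h3 : ∏ p ∈ T, ((1 : ℤ) - (if ch p ((u : ZMod (fJ T)).val : ℤ) = 1 then 1 else 0))
        = ∏ p ∈ T, (if ¬ ch p ((u : ZMod (fJ T)).val : ℤ) = 1 then 1 else 0) := by
      refine prod_congr rfl fun p _ => ?_
      split_ifs <;> simp_all
    rw [h3, prod_ite_zero]
    simp

/-- the support of `BJ` -/
theorem BJ_supp {J : Finset ℕ} (hJ : Good J) (hm : fJ J ∣ m) {a : ZMod m}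
    (ha : oddPart (BJ m J) a ≠ 0) : addOrderOf a = fJ J := by
  have key : ∀ b : ZMod m, b ∈ BE m J 1 → addOrderOf b = fJ J := by
    intro b hb
    obtain ⟨k, hk, h1, h2⟩ := exists_of_mem_BE hm hb
    have h3 : Nat.Coprime k (fJ J) := by
      by_contra h3
      exact not_all hJ 1 h3 h2
    rw [h1, ← jj_natCast hm]
    exact addOrderOf_unit hm (ZMod.unitOfCoprime k h3)
  unfold oddPart at ha
  rw [BJ_eq] at ha
  by_cases h1 : a ∈ BE m J 1
  · exact key a h1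
  · by_cases h2 : -a ∈ BE m J 1
    · rw [← addOrderOf_neg]
      exact key _ h2
    · exfalso
      apply ha
      rw [Multiset.count_eq_zero.mpr (show a ∉ (BE m J 1).val from h1),
        Multiset.count_eq_zero.mpr (show -a ∉ (BE m J 1).val from h2)]
      simp

lemma fJ_ne {J T : Finset ℕ} (hT : Good T) (hJT : J ⊆ T) (hne : J ≠ T) : fJ J ≠ fJ T := by
  have h1 : fJ T = fJ (T \ J) * fJ J := (prod_sdiff hJT).symm
  have h2 : (T \ J).Nonempty := by
    rw [sdiff_nonempty]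
    intro h
    exact hne (hJT.antisymm h)
  have h3 := two_lt_fJ (hT.mono sdiff_subset) h2
  have h4 := fJ_pos (hT.mono hJT)
  rw [h1]
  nlinarith

lemma fJ_dvd {J T : Finset ℕ} (hJT : J ⊆ T) : fJ J ∣ fJ T :=
  prod_dvd_prod_of_subset _ _ _ hJT

/-- realization of the functions on signs -/
lemma exists_E0 {T : Finset ℕ} (hT : Good T) (hm : fJ T ∣ m) {g : (ℕ → ℤˣ) → ℚ}
    (hg : g ∈ AddSubgroup.closure {g : (ℕ → ℤˣ) → ℚ | ∃ J, J ⊆ T ∧ Odd J.card ∧ g = Sf J}) :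
    ∃ E ∈ thetaSub m, OddF E ∧
      (∀ t : (ZMod m)ˣ, ((∑ a, E a * (((t : ZMod m) * a).val : ℤ) : ℤ) : ℚ) = 2 * m * g (sg t)) ∧
      ∀ a, E a ≠ 0 → ∃ J, J ⊆ T ∧ Odd J.card ∧ addOrderOf a = fJ J := by
  induction hg using AddSubgroup.closure_induction with
  | mem g hg =>
    obtain ⟨J, hJT, hodd, rfl⟩ := hg
    have hJ := hT.mono hJT
    have hJm := (fJ_dvd hJT).trans hm
    exact ⟨oddPart (BJ m J), oddPart_BJ_mem hJ hJm, oddPart_odd _,
      fun t => sum_BJ hJ (card_pos.mp hodd.pos) hJm t,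
      fun a ha => ⟨J, hJT, hodd, BJ_supp hJ hJm ha⟩⟩
  | zero =>
    exact ⟨0, (thetaSub m).zero_mem, fun a => by simp, fun t => by simp, fun a ha => absurd rfl ha⟩
  | add g1 g2 _ _ h1 h2 =>
    obtain ⟨E1, a1, a2, a3, a4⟩ := h1
    obtain ⟨E2, b1, b2, b3, b4⟩ := h2
    refine ⟨E1 + E2, (thetaSub m).add_mem a1 b1, ?_, ?_, ?_⟩
    · intro a
      rw [Pi.add_apply, Pi.add_apply, a2, b2]
      ring
    · intro t
      simp only [Pi.add_apply, add_mul, sum_add_distrib]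
      rw [Int.cast_add, a3, b3]
      ring
    · intro a ha
      by_cases h : E1 a = 0
      · apply b4
        rwa [Pi.add_apply, h, zero_add] at ha
      · exact a4 a h
  | neg g _ h =>
    obtain ⟨E1, a1, a2, a3, a4⟩ := h
    refine ⟨-E1, (thetaSub m).neg_mem a1, ?_, ?_, ?_⟩
    · intro a
      rw [Pi.neg_apply, Pi.neg_apply, a2]
    · intro t
      simp only [Pi.neg_apply, neg_mul, sum_neg_distrib]
      rw [Int.cast_neg, a3]
      ring
    · intro a ha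
      apply a4
      rwa [Pi.neg_apply, neg_ne_zero] at ha

/-- the exceptional class -/
theorem excT_theta (h2 : 2 ∣ m) {n f : ℕ} (hf : f ∣ m) (hfn : f ∣ n) (hf1 : f ≠ 1)
    (hf4 : f % 4 ≠ 2) (hfr : f ∣ 2 * rad f) (hev : Even f.primeFactors.card)
    (hp : ∀ p ∈ f.primeFactors, p % 4 ≠ 1) {G : Multiset (ZMod m) → Prop}
    (hG : ∀ s, Theta s → G s) : ExcT (· ∣ n) (YY G) f hf := by
  have hf0 : f ≠ 0 := f_ne_zero hf
  haveI : NeZero f := ⟨hf0⟩
  set T := f.primeFactors with hTdef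
  have hfT : f = fJ T := eff_prod hf0 hf4 hfr
  have hT : Good T := by
    intro p hpT
    have hpp := Nat.prime_of_mem_primeFactors hpT
    refine ⟨hpp, ?_⟩
    have h1 := hp p hpT
    rcases hpp.eq_two_or_odd with h | h
    · exact Or.inl h
    · right
      omega
  have hne : T.Nonempty := by
    rw [hTdef, Nat.nonempty_primeFactors]
    omega
  have hTm : fJ T ∣ m := by rwa [← hfT]
  obtain ⟨E0, e1, e2, e3, e4⟩ := exists_E0 (m := m) hT hTm (Sf_mem hT hne)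
  have hTate : TateF (oddPart (BJ m T) - E0) := by
    intro t
    have h1 := sum_BJ hT hne hTm t
    have h3 := e3 t
    simp only [Pi.sub_apply, sub_mul, sum_sub_distrib]
    rw [← h3] at h1
    have h4 := Int.cast_injective h1
    rw [h4, sub_self]
  have hmemT : oddPart (BJ m T) - E0 ∈ thetaSub m :=
    (thetaSub m).sub_mem (oddPart_BJ_mem hT hTm) e1
  have hcard : ∀ J, J ⊆ T → Odd J.card → J ≠ T := by
    rintro J - hodd rfl
    exact (Nat.not_odd_iff_even.mpr hev) hodd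
  refine ⟨fun p u => if ch p ((u : ZMod f).val : ℤ) = 1 then 1 else 0, oddPart (BJ m T) - E0,
    ⟨?_, ?_⟩, AddSubgroup.mem_sup_left (mem_YY_of_theta h2 hmemT hTate hG),
    (oddPart_odd _).sub e2, hTate, ?_, ?_⟩
  · intro p hpT x
    have hpf : ep p ∣ f := by
      rw [hfT]
      exact ep_dvd_fJ hpT
    have hx0 : (x : ZMod f) ≠ 0 := by
      intro h
      have h1 := ZMod.val_coe_unit_coprime x
      rw [h, ZMod.val_zero, Nat.coprime_zero_left] at h1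
      exact hf1 h1
    have h1 : (((-1) * x : (ZMod f)ˣ) : ZMod f) = -(x : ZMod f) := by
      rw [neg_one_mul, Units.val_neg]
    simp only [h1]
    rw [ch_neg_val (hT p hpT).1 (hT p hpT).2 hpf hx0]
    have h3 : ch p ((x : ZMod f).val : ℤ) = 1 ∨ ch p ((x : ZMod f).val : ℤ) = -1 := by
      apply ch_sign_of_coprime hT _ hpT
      rw [← hfT]
      exact ZMod.val_coe_unit_coprime x
    rcases h3 with h3 | h3 <;> rw [h3] <;> norm_num
  · intro p hpT q hqT hpq z hz x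
    have hpf : ep p ∣ f := by
      rw [hfT]
      exact ep_dvd_fJ hpT
    haveI : NeZero (ep p) := ⟨(ep_pos (hT p hpT).1).ne'⟩
    have h1 := cast_Kp (hT p hpT).1 (hT q hqT).1 hpq hpf hz
    have h2' : ch p (((z * x : (ZMod f)ˣ) : ZMod f).val : ℤ) = ch p ((x : ZMod f).val : ℤ) := by
      apply ch_congr
      have h3 : ((((z * x : (ZMod f)ˣ) : ZMod f).val : ℕ) : ZMod (ep p))
          = (((x : ZMod f).val : ℕ) : ZMod (ep p)) := by
        have h4 : ∀ y : ZMod f, ((y.val : ℕ) : ZMod (ep p)) = ZMod.castHom hpf (ZMod (ep p)) y := by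
          intro y
          conv_rhs => rw [← ZMod.natCast_zmod_val y]
          rw [map_natCast]
        rw [h4, h4, Units.val_mul, map_mul, h1, one_mul]
      rw [← ZMod.intCast_zmod_eq_zero_iff_dvd]
      push_cast
      push_cast at h3
      rw [h3, sub_self]
    simp only [h2']
  · intro a ha
    have h1 : ∃ J, J ⊆ T ∧ addOrderOf a = fJ J := by
      by_cases h : E0 a = 0
      · rw [Pi.sub_apply, h, sub_zero] at ha
        exact ⟨T, Subset.refl T, BJ_supp hT hTm ha⟩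
      · obtain ⟨J, hJT, _, h3⟩ := e4 a h
        exact ⟨J, hJT, h3⟩
    obtain ⟨J, hJT, h3⟩ := h1
    have h4 : fJ J ∣ f := by
      rw [hfT]
      exact fJ_dvd hJT
    rw [h3]
    exact ⟨Nat.le_of_dvd (Nat.pos_of_ne_zero hf0) h4, h4.trans hfn⟩
  · intro u
    have h1 : E0 (jj hf (u : ZMod f)) = 0 := by
      by_contra h
      obtain ⟨J, hJT, hodd, h3⟩ := e4 _ h
      rw [addOrderOf_unit hf u, hfT] at h3
      exact fJ_ne hT hJT (hcard J hJT hodd) h3.symm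
    rw [Pi.sub_apply, h1, sub_zero]
    exact BJ_top hT hne hf hfT u

end Pool.Agent.Lib.MP_938ce2_ag_h99t
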