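import Pool.Agent.Lib.MP_938ce2_ag_h99t.RefTheta
import Pool.Agent.Lib.MP_938ce2_ag_h99.Final4

/-!
Tate characters: algebraicity from the pairs of effective primes, with theta sets.
-/

set_option autoImplicit false
set_option linter.style.haveILetI false
set_option linter.unusedSectionVars false

open Finset

namespace Pool.Agent.Lib.MP_938ce2_ag_h99t

open Pool.Agent.Lib.MP_938ce2_ag_h99 Pool.Agent.Lib.MP_938ce2_ag_h6
open Pool.Agent.Lib.MP_938ce2_ag_H7f Pool.Agent.Lib.MP_938ce2_ag_H7e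

variable {m : ℕ} [NeZero m]

/-- the additional class of characters -/
def GT (s : Multiset (ZMod m)) : Prop := Fano s ∨ Theta s

private lemma T5_ref_mono {M Q n q : ℕ} [NeZero M] {hD : Dat M Q n q} [NeZero n] {K : ℕ}
    {X Y : AddSubgroup (ZMod M → ℤ)} (hXY : X ≤ Y) {b : ZMod n} {N0 : ℤ} {A : ZMod M → ℤ}
    (h : Ref hD K X b N0 A) : Ref hD K Y b N0 A :=
  ⟨h.odd, h.tate, hXY h.mem, h.psh, h.norm, h.supp0⟩

private lemma T5_ref3_mono {M q : ℕ} [NeZero M] {X Y : AddSubgroup (ZMod M → ℤ)} (hXY : X ≤ Y)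
    (h : Ref3 M X q) : Ref3 M Y q := by
  intro Q n K hD hn hQ b hb
  obtain ⟨A, N0, h1, h2⟩ := h Q n K hD hQ b hb
  exact ⟨A, N0, T5_ref_mono hXY h1, h2⟩

private lemma T5_clique : ∀ S ∈ ({2, 3, 5, 7, 11, 13, 17, 19} : Finset ℕ).powerset,
    (∀ p ∈ S, ∀ q ∈ S, p < q → (p % 4 ≠ 1 ∧ q % 4 ≠ 1) ∨ Tin p q) →
    ¬ (2 ∈ S ∧ 3 ∈ S ∧ 5 ∈ S ∧ 7 ∈ S) → (∃ p ∈ S, p % 4 = 1) → S.card ≤ 3 := by
  decide +kernel

private lemma T5_XF_le {M : ℕ} [NeZero M] : XF M ≤ YY (GT (m := M)) := by
  unfold XF YY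
  apply AddSubgroup.closure_mono
  rintro _ ⟨r, hr, hc, rfl⟩
  exact ⟨r, hr, hc.imp id Or.inl, rfl⟩

theorem T5_fun5 {M : ℕ} [NeZero M] (hM : 2 * m ∣ M) {l : ℕ} (hl : 6 ≤ l)
    (h420 : ¬ 420 ∣ m)
    (h : ∀ p q, p < q → Eff m p → Eff m q → p % 4 ≠ 1 ∧ q % 4 ≠ 1 ∨
      Tin p q ∨ (if p = 3 then 4 * l + 1 else 2 * l + 1) < q)
    {F : ZMod M → ℤ} (ho : OddF F) (hT : TateF F) (hN : ∑ a, |F a| ≤ 2 * l)
    (hs : ∀ a, F a ≠ 0 → addOrderOf a ∣ m) : F ∈ YY (GT (m := M)) ⊔ relSub M := by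
  classical
  have hlcm : Nat.lcm 2 m ∣ M := (Nat.lcm_dvd_mul 2 m).trans hM
  refine fun4 (YY (GT (m := M))) (m0 := Nat.lcm 2 m) (l := l) hlcm (Nat.dvd_lcm_left 2 m)
    (by omega) ?_ ?_ ho hT hN (fun a ha => (hs a ha).trans (Nat.dvd_lcm_right 2 m))
  · intro h3 q hq hqm hq1 hq2
    have e3 : Eff m 3 := Eff.of_dvd_lcm (f := 3) (by norm_num) h3 (by
      rw [Nat.Prime.primeFactors Nat.prime_three]
      exact mem_singleton_self 3)
    have eq : Eff m q := Eff.of_dvd_lcm (f := q) (by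
      have := hq.eq_two_or_odd
      omega) hqm (by
      rw [Nat.Prime.primeFactors hq]
      exact mem_singleton_self q)
    have h6 : 6 ∣ M := by
      have h7 : 2 * m ∣ M := hM
      have h8 : 3 ∣ m := e3.2.1
      have h9 : 2 * 3 ∣ 2 * m := Nat.mul_dvd_mul_left 2 h8
      exact h9.trans h7
    rcases h 3 q (by omega) e3 eq with h5 | h5 | h5
    · refine ref3_theta h6 hq (by omega) ?_ (fun s hs => Or.inr hs)
      have h10 := hq.eq_two_or_odd
      omega
    · have h10 : q ≤ 19 := by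
        unfold Tin at h5
        omega
      refine T5_ref3_mono T5_XF_le (ref3 h6 ?_)
      interval_cases q <;> first | omega | (exfalso; revert hq; norm_num)
    · rw [if_pos rfl] at h5
      omega
  · intro ns hns h2ns f hf hfn hf1 hf4 hfr hev hL
    have hf0 : f ≠ 0 := f_ne_zero hf
    have hEff : ∀ p ∈ f.primeFactors, Eff m p := fun p hp =>
      Eff.of_dvd_lcm hf4 (hfn.trans hns) hp
    have hTin' : ∀ p ∈ f.primeFactors, ∀ q ∈ f.primeFactors, p < q →
        (p % 4 ≠ 1 ∧ q % 4 ≠ 1) ∨ Tin p q := by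
      intro p hp q hq hpq
      rcases h p q hpq (hEff p hp) (hEff q hq) with h5 | h5 | h5
      · exact Or.inl h5
      · exact Or.inr h5
      · exfalso
        have := hL q hq
        split_ifs at h5 <;> omega
    by_cases hall : ∀ p ∈ f.primeFactors, p % 4 ≠ 1
    · left
      exact excT_theta ((Nat.dvd_lcm_left 2 m).trans hlcm) hf hfn hf1 hf4 hfr hev hall
        (fun s hs => Or.inr hs)
    right
    push Not at hall
    obtain ⟨p1, hp1, hp14⟩ := hall
    have hpos : 0 < f.primeFactors.card := by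
      rw [Finset.card_pos, Nat.nonempty_primeFactors]
      omega
    have hcard2 : 2 ≤ f.primeFactors.card := by
      obtain ⟨k, hk⟩ := hev
      omega
    have hp1T : ∀ q ∈ f.primeFactors, q ≠ p1 → Tin p1 q ∨ Tin q p1 := by
      intro q hq hne
      rcases lt_or_gt_of_ne hne with h1 | h1
      · rcases hTin' q hq p1 hp1 h1 with h2 | h2
        · exact absurd hp14 h2.2
        · exact Or.inr h2
      · rcases hTin' p1 hp1 q hq h1 with h2 | h2
        · exact absurd hp14 h2.1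
        · exact Or.inl h2
    have hS19 : ∀ p ∈ f.primeFactors, p ≤ 19 := by
      intro p hp
      by_cases hpp : p = p1
      · subst hpp
        obtain ⟨z, hz, hzp⟩ := Finset.exists_mem_ne (by omega : 1 < f.primeFactors.card) p
        have h2 := hp1T z hz hzp
        unfold Tin at h2
        omega
      · have h2 := hp1T p hp hpp
        unfold Tin at h2
        omega
    have hSsub : f.primeFactors ∈ ({2, 3, 5, 7, 11, 13, 17, 19} : Finset ℕ).powerset := by
      rw [mem_powerset]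
      intro p hp
      have h1 := hS19 p hp
      have h2 := Nat.prime_of_mem_primeFactors hp
      clear hp
      interval_cases p <;> first | decide | (exfalso; revert h2; norm_num)
    have hno : ¬ (2 ∈ f.primeFactors ∧ 3 ∈ f.primeFactors ∧ 5 ∈ f.primeFactors ∧
        7 ∈ f.primeFactors) := by
      rintro ⟨a2, a3, a5, a7⟩
      have b2 := (hEff 2 a2).2.2 rfl
      have b3 := (hEff 3 a3).2.1
      have b5 := (hEff 5 a5).2.1
      have b7 := (hEff 7 a7).2.1
      apply h420
      omega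
    have h3 := T5_clique _ hSsub hTin' hno ⟨p1, hp1, hp14⟩
    have hc2 : f.primeFactors.card = 2 := by
      obtain ⟨k, hk⟩ := hev
      omega
    obtain ⟨p', q', hpq', hp'⟩ := Finset.card_eq_two.mp hc2
    obtain ⟨p, q, hpq, hp⟩ : ∃ p q, p < q ∧ f.primeFactors = {p, q} := by
      rcases lt_or_gt_of_ne hpq' with h | h
      · exact ⟨p', q', h, hp'⟩
      · exact ⟨q', p', h, by rw [hp', pair_comm]⟩
    refine ⟨p, q, hpq, hp, ?_⟩
    have hpm : p ∈ f.primeFactors := by rw [hp]; simp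
    have hqm : q ∈ f.primeFactors := by rw [hp]; simp
    have hfe := ep_mul_of_pair hpq.ne (eff_prod hf0 hf4 hfr) hp
    have hT' : Tin p q := by
      rcases hTin' p hpm q hqm hpq with h5 | h5
      · exfalso
        rw [hp, mem_insert, mem_singleton] at hp1
        rcases hp1 with rfl | rfl
        · exact h5.1 hp14
        · exact h5.2 hp14
      · exact h5
    have hqq := Nat.prime_of_mem_primeFactors hqm
    clear hp hpm hqm hTin' hEff hL hev hpos hcard2 hS19 hSsub hno h3 hc2 hp' hf4 hfr hf1 hp1T hp1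
      hp14
    subst hfe
    exact (excAll hqq hpq hT' h2ns (hns.trans hlcm) hf hfn).mono T5_XF_le

/-- Main theorem: algebraicity from the pairs of small effective primes, with theta sets. -/
theorem tate_alg5 (hm : m ∣ 2 * m) (h420 : ¬ 420 ∣ m) {s : Multiset (ZMod m)} (hs : IsTate s)
    (h : ∀ p q, p < q → Eff m p → Eff m q → p % 4 ≠ 1 ∧ q % 4 ≠ 1 ∨
      Tin p q ∨ (if p = 3 then 4 * s.card + 1 else 2 * s.card + 1) < q) :
    haveI : NeZero (2 * m) := ⟨mul_ne_zero (by norm_num) (NeZero.ne m)⟩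
    IsAlgG GT (s.map (jj hm)) := by
  haveI : NeZero (2 * m) := ⟨mul_ne_zero (by norm_num) (NeZero.ne m)⟩
  set s' := s.map (jj hm) with hs'
  have hT := hs.lift hm
  have hcard : s'.card = s.card := Multiset.card_map _ _
  by_cases h4 : s.card ≤ 4
  · exact IsAlgG.low s' hT (by rw [hcard]; exact h4)
  have hev := (isTate_iff.mp hs).2.1
  have h6 : 6 ≤ s.card := by
    obtain ⟨k, hk⟩ := hev
    omega
  have hl1 := l1_le s'
  have hmem := T5_fun5 (m := m) (M := 2 * m) dvd_rfl h6 h420 h (F := oddPart s') (oddPart_odd s')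
    (isTate_iff.mp hT).2.2 (by
      rw [hcard] at hl1
      exact hl1) (by
      intro a ha
      by_cases h : ∃ y, jj hm y = a
      · obtain ⟨y, rfl⟩ := h
        exact Pool.Agent.Lib.MP_938ce2_ag_H7f.order_jj_dvd hm y
      · push Not at h
        exact absurd (oddPart_lift_of_forall_ne hm s h) ha)
  refine isAlgG_of_mem (fun r hr => ?_) hT hmem
  rcases hr with hr | hr
  · exact Or.inl hr.neg
  · exact Or.inr hr.neg

end Pool.Agent.Lib.MP_938ce2_ag_h99t
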