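import Pool.Agent.Lib.MP_938ce2_ag_h99t.Exc
import Pool.Agent.Lib.MP_938ce2_ag_h99.RefThree4

/-!
Reference functions for the points of order three from theta sets.
-/

set_option autoImplicit false
set_option linter.style.haveILetI false
set_option linter.unusedSectionVars false

open Finset

namespace Pool.Agent.Lib.MP_938ce2_ag_h99t

open Pool.Agent.Lib.MP_938ce2_ag_h99 Pool.Agent.Lib.MP_938ce2_ag_h6
open Pool.Agent.Lib.MP_938ce2_ag_H7f Pool.Agent.Lib.MP_938ce2_ag_H7e

variable {m : ℕ} [NeZero m]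

lemma good_pair {q : ℕ} (hq : q.Prime) (hq4 : q % 4 = 3) : Good {3, q} := by
  intro p hp
  rcases mem_insert.mp hp with rfl | hp
  · exact ⟨Nat.prime_three, Or.inr rfl⟩
  · rw [mem_singleton.mp hp]
    exact ⟨hq, Or.inr hq4⟩

lemma fJ_pair {q : ℕ} (hq3 : 3 < q) : fJ {3, q} = 3 * q := by
  unfold fJ
  rw [prod_pair (by omega)]
  unfold ep
  rw [if_neg (by norm_num), if_neg (by omega)]

lemma fJ_single {q : ℕ} (hq : 3 ≤ q) : fJ {q} = q := by
  unfold fJ
  rw [prod_singleton]
  unfold ep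
  rw [if_neg (by omega)]

lemma Sf_single {r : ℕ} (hr : Good {r}) : Sf {r} = hh {r} := by
  rw [Sf_eq hr (singleton_nonempty r)]
  have h1 : ({r} : Finset ℕ).powerset.filter (fun I => Odd I.card) = {{r}} := by
    ext I
    rw [mem_filter, mem_powerset, subset_singleton_iff, mem_singleton]
    constructor
    · rintro ⟨rfl | h, h2⟩
      · simp at h2
      · exact h
    · rintro rfl
      exact ⟨Or.inr rfl, by simp⟩
  rw [h1, sum_singleton, dd_self, one_smul]

lemma filter_pair {q : ℕ} (hq3 : 3 < q) :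
    ({3, q} : Finset ℕ).powerset.filter (fun I => Odd I.card) = {{3}, {q}} := by
  ext I
  rw [mem_filter, mem_powerset, mem_insert, mem_singleton]
  constructor
  · rintro ⟨h1, h2⟩
    have h3 : I.card ≤ 2 := (card_le_card h1).trans (card_pair (by omega)).le
    have h4 : I.card = 1 := by
      obtain ⟨k, hk⟩ := h2
      omega
    obtain ⟨x, rfl⟩ := card_eq_one.mp h4
    have h5 := h1 (mem_singleton_self x)
    rcases mem_insert.mp h5 with rfl | h5
    · exact Or.inl rfl
    · exact Or.inr (by rw [mem_singleton.mp h5])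
  · rintro (rfl | rfl)
    · exact ⟨by simp, by simp⟩
    · exact ⟨by simp, by simp⟩

lemma ch_three (k : ℕ) : ch 3 (k : ℤ) = 1 ↔ k % 3 = 1 := by
  have h1 : k % 3 = 0 ∨ k % 3 = 1 ∨ k % 3 = 2 := by omega
  have e3 : ep 3 = 3 := rfl
  rcases h1 with h1 | h1 | h1
  · rw [ch_zero Nat.prime_three (Nat.dvd_of_mod_eq_zero h1)]
    constructor
    · intro h
      norm_num at h
    · intro h
      omega
  · have h2 : ch 3 (k : ℤ) = ch 3 1 := by
      apply ch_congr
      rw [e3]
      omega
    rw [h2]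
    unfold ch
    rw [if_neg (by norm_num), jacobiSym.one_left]
    exact ⟨fun _ => h1, fun _ => rfl⟩
  · have h2 : ch 3 (k : ℤ) = ch 3 (-1) := by
      apply ch_congr
      rw [e3]
      omega
    rw [h2, ch_neg_one Nat.prime_three (Or.inr rfl)]
    constructor
    · intro h
      norm_num at h
    · intro h
      omega

lemma Sf_pair {q : ℕ} (hq : q.Prime) (hq3 : 3 < q) (hq4 : q % 4 = 3) :
    Sf {3, q} = Sf {if q % 3 = 1 then q else 3} := by
  have hT := good_pair hq hq4
  have h3q : (3 : ℕ) ≠ q := by omega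
  have hne : ({3} : Finset ℕ) ≠ {q} := by
    intro h
    exact h3q (singleton_injective h)
  have h3 : q % 3 ≠ 0 := by
    intro h
    have := (Nat.prime_dvd_prime_iff_eq Nat.prime_three hq).mp (Nat.dvd_of_mod_eq_zero h)
    omega
  have e1 : ({3, q} : Finset ℕ) \ {3} = {q} := by
    ext x
    simp only [mem_sdiff, mem_insert, mem_singleton]
    omega
  have e2 : ({3, q} : Finset ℕ) \ {q} = {3} := by
    ext x
    simp only [mem_sdiff, mem_insert, mem_singleton]
    omega
  have c1 : ch 3 q = if q % 3 = 1 then 1 else -1 := by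
    split_ifs with h
    · have h4 : ch 3 (q : ℤ) = ch 3 1 := by
        apply ch_congr
        have : ep 3 = 3 := rfl
        rw [this]
        omega
      rw [h4]
      unfold ch
      rw [if_neg (by norm_num)]
      exact jacobiSym.one_left 3
    · have h4 : ch 3 (q : ℤ) = ch 3 (-1) := by
        apply ch_congr
        have : ep 3 = 3 := rfl
        rw [this]
        omega
      rw [h4, ch_neg_one Nat.prime_three (Or.inr rfl)]
  have c2 : ch q 3 = - ch 3 q := by
    unfold ch
    rw [if_neg (by omega), if_neg (by norm_num)]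
    exact jacobiSym.quadratic_reciprocity_three_mod_four (by norm_num) hq4
  have d1 : dd {3, q} {3} = if q % 3 = 1 then 0 else 1 := by
    unfold dd cI
    rw [e1, prod_singleton, prod_singleton, c1]
    split_ifs <;> simp_all
  have d2 : dd {3, q} {q} = if q % 3 = 1 then 1 else 0 := by
    unfold dd cI
    rw [e2, prod_singleton, prod_singleton]
    have : ch q ((3 : ℕ) : ℤ) = ch q 3 := rfl
    rw [this, c2, c1]
    split_ifs <;> simp_all
  rw [Sf_eq hT (insert_nonempty _ _), filter_pair hq3, sum_pair hne, d1, d2]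
  split_ifs with h
  · rw [zero_smul, one_smul, zero_add, Sf_single (hT.mono (by simp))]
  · rw [zero_smul, one_smul, add_zero, Sf_single (hT.mono (by simp))]

lemma count_BJ {T : Finset ℕ} {f : ℕ} [NeZero f] (hf : f ∣ m) (hfT : f = fJ T) (x : ZMod f) :
    ((BJ m T).count (jj hf x) : ℤ) = if ∀ p ∈ T, ch p (x.val : ℤ) = 1 then 1 else 0 := by
  classical
  subst hfT
  have hjj : jj hf x = ((m / fJ T * x.val : ℕ) : ZMod m) := by
    conv_lhs => rw [← ZMod.natCast_zmod_val x]
    exact jj_natCast hf x.val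
  have h2 : jj hf x ∈ BE m T 1 ↔ ∀ p ∈ T, ch p (x.val : ℤ) = 1 := by
    rw [hjj, mem_BE_iff hf]
    rfl
  rw [BJ_eq, Multiset.count_eq_of_nodup (BE m T 1).nodup]
  have h3 : jj hf x ∈ (BE m T 1).val ↔ ∀ p ∈ T, ch p (x.val : ℤ) = 1 := h2
  rw [if_congr h3 rfl rfl]
  split_ifs <;> rfl

/-- the number of residues with both signs equal to one -/
lemma card_pair_B {f q : ℕ} [NeZero f] (hq : q.Prime) (hq3 : 3 < q) (hfe : f = 3 * q)
    {B : Finset (ZMod f)} (hB : ∀ x, x ∈ B ↔ ch 3 (x.val : ℤ) = 1 ∧ ch q (x.val : ℤ) = 1) :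
    2 * (B.card : ℤ) = (q : ℤ) - 1 := by
  subst hfe
  haveI : Fact q.Prime := ⟨hq⟩
  haveI : NeZero q := ⟨hq.ne_zero⟩
  have hcop : Nat.Coprime 3 q := (Nat.coprime_primes Nat.prime_three hq).mpr (by omega)
  set e := ZMod.chineseRemainder hcop with he
  have e1 : ∀ k : ℕ, (e (k : ZMod (3 * q))) = ((k : ZMod 3), (k : ZMod q)) := by
    intro k
    rw [map_natCast]
    rfl
  have key : ∀ x : ZMod (3 * q), x ∈ B ↔ (e x).1 = 1 ∧ quadraticChar (ZMod q) (e x).2 = 1 := by
    intro x
    have h1 : e x = (((x.val : ℕ) : ZMod 3), ((x.val : ℕ) : ZMod q)) := by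
      conv_lhs => rw [← ZMod.natCast_zmod_val x]
      exact e1 _
    rw [hB, h1]
    refine and_congr ?_ ?_
    · rw [ch_three]
      have : (1 : ZMod 3) = ((1 : ℕ) : ZMod 3) := by simp
      rw [this, ZMod.natCast_eq_natCast_iff]
      rfl
    · unfold ch
      rw [if_neg (by omega)]
      rw [← jacobiSym.legendreSym.to_jacobiSym q (x.val : ℤ)]
      unfold legendreSym
      rw [Int.cast_natCast]
  have h2 : B.card = (univ.filter fun y : ZMod q => quadraticChar (ZMod q) y = 1).card := by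
    refine card_nbij' (fun x => (e x).2) (fun y => e.symm (1, y)) ?_ ?_ ?_ ?_
    · intro x hx
      exact mem_filter.mpr ⟨mem_univ _, ((key x).mp hx).2⟩
    · intro y hy
      have hy' := (mem_filter.mp hy).2
      have : e.symm (1, y) ∈ B := by
        rw [key]
        simp [hy']
      exact this
    · intro x hx
      have := (key x).mp hx
      show e.symm (1, (e x).2) = x
      rw [← this.1]
      simp
    · intro y _
      show (e (e.symm (1, y))).2 = y
      simp
  rw [h2]
  have hq2 : ringChar (ZMod q) ≠ 2 := by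
    rw [ZMod.ringChar_zmod_n]
    omega
  have s1 : ∑ a : ZMod q, quadraticChar (ZMod q) a = 0 := quadraticChar_sum_zero hq2
  have s2 : ∑ a : ZMod q, (if a = 0 then (0 : ℤ) else 1) = (q : ℤ) - 1 := by
    have h3 : ∀ a : ZMod q, (if a = 0 then (0 : ℤ) else 1) = 1 - (if a = 0 then 1 else 0) := by
      intro a
      split_ifs <;> simp
    rw [sum_congr rfl fun a _ => h3 a, sum_sub_distrib, sum_const, card_univ, ZMod.card,
      sum_ite_eq']
    simp
  have s3 : ∀ a : ZMod q, quadraticChar (ZMod q) a + (if a = 0 then (0 : ℤ) else 1)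
      = 2 * (if quadraticChar (ZMod q) a = 1 then 1 else 0) := by
    intro a
    by_cases ha : a = 0
    · rw [ha]
      simp
    · rcases quadraticChar_dichotomy ha with h | h <;> rw [h, if_neg ha] <;> norm_num
  have s4 := sum_congr (rfl : (univ : Finset (ZMod q)) = univ) fun a _ => s3 a
  rw [sum_add_distrib, s1, s2, ← mul_sum, sum_boole] at s4
  linarith

/-- the pushed function -/
lemma PH_pair {Q n q : ℕ} (hD : Dat m Q n q) [NeZero n] {K : ℕ} (hK : K ≠ 0) (hQ : Q = q ^ K)
    (hq3 : 3 < q) (hm : fJ {3, q} ∣ m) (hd : 3 ∣ n) (hq4 : q % 4 = 3) (t : (ZMod n)ˣ) :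
    PH (push hD (upF Q q K (oddPart (BJ m {3, q})))) t = Q.totient * W t (jj hd 1) := by
  classical
  have hq := hD.hq
  have hT := good_pair hq hq4
  have hfe : fJ {3, q} = 3 * q := fJ_pair hq3
  have hfe' : fJ {3, q} = q * 3 := by rw [hfe, mul_comm]
  haveI : NeZero (fJ {3, q}) := ⟨f_ne_zero hm⟩
  have hdf : 3 ∣ fJ {3, q} := ⟨q, hfe⟩
  have hoff : ∀ a, (∀ k, jj hm k ≠ a) → oddPart (BJ m {3, q}) a = 0 := by
    intro a ha
    by_contra h
    have h1 := BJ_supp hT hm h
    obtain ⟨u, hu⟩ := exists_unit_of_order hm h1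
    exact ha _ hu
  rw [PH_push_up_one hD hK hQ hfe' hm hd hdf (fun k => oddPart (BJ m {3, q}) (jj hm k))
    (fun _ => rfl) hoff (fun a ha => by
      rw [BJ_supp hT hm ha, hfe']
      exact Dvd.intro 3 rfl)]
  set B := univ.filter fun x : ZMod (fJ {3, q}) => ch 3 (x.val : ℤ) = 1 ∧ ch q (x.val : ℤ) = 1
    with hB
  have hB' : ∀ x, x ∈ B ↔ ch 3 (x.val : ℤ) = 1 ∧ ch q (x.val : ℤ) = 1 := by
    intro x
    rw [hB, mem_filter]
    exact and_iff_right (mem_univ x)
  set τ := ZMod.unitsMap hd t with hτ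
  set φ : ZMod (fJ {3, q}) → ℤ := fun k => W τ (ZMod.castHom hdf (ZMod 3) k) with hφ
  have h1 : ∀ k, oddPart (BJ m {3, q}) (jj hm k)
      = (if k ∈ B then 1 else 0) - (if -k ∈ B then 1 else 0) := by
    intro k
    have h0 : ∀ x : ZMod (fJ {3, q}), (∀ p ∈ ({3, q} : Finset ℕ), ch p (x.val : ℤ) = 1) ↔ x ∈ B := by
      intro x
      rw [hB']
      simp only [mem_insert, mem_singleton, forall_eq_or_imp, forall_eq]
    unfold oddPart
    rw [← map_neg, count_BJ hm rfl, count_BJ hm rfl, if_congr (h0 k) rfl rfl,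
      if_congr (h0 (-k)) rfl rfl]
  have h2 : ∑ k, oddPart (BJ m {3, q}) (jj hm k) * φ k = ∑ k ∈ B, (φ k - φ (-k)) := by
    simp only [h1, sub_mul, sum_sub_distrib]
    congr 1
    · simp only [ite_mul, one_mul, zero_mul]
      rw [← sum_filter]
      congr 1
      ext x
      simp
    · have h3 : ∑ x, (if -x ∈ B then (1 : ℤ) else 0) * φ x
          = ∑ x, (if x ∈ B then (1 : ℤ) else 0) * φ (-x) := by
        refine Fintype.sum_equiv (Equiv.neg _) _ _ fun a => ?_
        rw [Equiv.neg_apply, neg_neg]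
      rw [h3]
      simp only [ite_mul, one_mul, zero_mul]
      rw [← sum_filter]
      congr 1
      ext x
      simp
  have h3 : ∀ k ∈ B, φ k - φ (-k) = 2 * W τ 1 := by
    intro k hk
    have hk' := ((hB' k).mp hk).1
    have h4 : ZMod.castHom hdf (ZMod 3) k = 1 := by
      have h5 : ZMod.castHom hdf (ZMod 3) k = ((k.val : ℕ) : ZMod 3) := by
        conv_lhs => rw [← ZMod.natCast_zmod_val k, map_natCast]
      rw [ch_three] at hk'
      rw [h5]
      have : (1 : ZMod 3) = ((1 : ℕ) : ZMod 3) := by simp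
      rw [this, ZMod.natCast_eq_natCast_iff]
      exact hk'
    show W τ (ZMod.castHom hdf (ZMod 3) k) - W τ (ZMod.castHom hdf (ZMod 3) (-k)) = _
    rw [map_neg, h4, W_neg']
    ring
  rw [h2, sum_congr rfl h3, sum_const, nsmul_eq_mul, W_jj]
  have h5 : 2 * (B.card : ℤ) = (q : ℤ) - 1 := card_pair_B hq hq3 hfe hB'
  have h6 : (Q.totient : ℤ) = (q ^ (K - 1) : ℕ) * ((q : ℤ) - 1) := by
    rw [hQ, Nat.totient_prime_pow hq (Nat.pos_of_ne_zero hK)]
    push_cast [Nat.cast_sub hq.one_lt.le]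
    ring
  rw [h6, ← h5]
  ring

/-- the points of order `q` are pushed to zero -/
lemma PH_single {Q n q : ℕ} (hD : Dat m Q n q) [NeZero n] {K : ℕ} (hK : K ≠ 0) (hQ : Q = q ^ K)
    (hq3 : 3 < q) (hm : fJ {q} ∣ m) (hq4 : q % 4 = 3) (t : (ZMod n)ˣ) :
    PH (push hD (upF Q q K (oddPart (BJ m {q})))) t = 0 := by
  classical
  have hq := hD.hq
  have hT : Good {q} := (good_pair hq hq4).mono (by simp)
  have hfe : fJ {q} = q * 1 := by rw [fJ_single hq3.le, mul_one]
  haveI : NeZero (fJ {q}) := ⟨f_ne_zero hm⟩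
  have hdf : 1 ∣ fJ {q} := one_dvd _
  have hoff : ∀ a, (∀ k, jj hm k ≠ a) → oddPart (BJ m {q}) a = 0 := by
    intro a ha
    by_contra h
    have h1 := BJ_supp hT hm h
    obtain ⟨u, hu⟩ := exists_unit_of_order hm h1
    exact ha _ hu
  rw [PH_push_up_one hD hK hQ hfe hm (one_dvd n) hdf (fun k => oddPart (BJ m {q}) (jj hm k))
    (fun _ => rfl) hoff (fun a ha => by
      rw [BJ_supp hT hm ha, hfe]
      exact Dvd.intro 1 rfl)]
  rw [sum_eq_zero, mul_zero]
  intro k _
  have h1 : ∀ x : ZMod 1, x = 0 := by decide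
  rw [h1 (ZMod.castHom hdf (ZMod 1) k)]
  unfold W
  rw [if_pos rfl, mul_zero]

lemma part1_of {q : ℕ} {F : ZMod m → ℤ} (h : ∀ a, F a ≠ 0 → q ∣ addOrderOf a) :
    part1 q F = F ∧ part0 q F = 0 := by
  constructor
  · funext a
    unfold part1
    split_ifs with h1
    · rfl
    · by_contra h2
      exact h1 (h a (Ne.symm h2))
  · funext a
    unfold part0
    split_ifs with h1
    · rfl
    · by_contra h2
      exact h1 (h a h2)

lemma part0_of {q : ℕ} {F : ZMod m → ℤ} (h : ∀ a, F a ≠ 0 → ¬ q ∣ addOrderOf a) :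
    part1 q F = 0 ∧ part0 q F = F := by
  constructor
  · funext a
    unfold part1
    split_ifs with h1
    · by_contra h2
      exact h a h2 h1
    · rfl
  · funext a
    unfold part0
    split_ifs with h1
    · by_contra h2
      exact h a (Ne.symm h2) h1
    · rfl

lemma norm_oddPart_le (s : Multiset (ZMod m)) : ∑ a, |oddPart s a| ≤ 2 * (s.card : ℤ) := by
  have h1 : ∀ a, |oddPart s a| ≤ (s.count a : ℤ) + (s.count (-a) : ℤ) := by
    intro a
    unfold oddPart
    have h2 : (0 : ℤ) ≤ s.count a := by positivity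
    have h3 : (0 : ℤ) ≤ s.count (-a) := by positivity
    rw [abs_le]
    constructor <;> linarith
  have h4 : ∑ a, (s.count a : ℤ) = s.card := by
    have := Multiset.toFinset_sum_count_eq s
    rw [← this]
    push_cast
    symm
    apply sum_subset (subset_univ _)
    intro a _ ha
    rw [Multiset.count_eq_zero.mpr (fun h => ha (Multiset.mem_toFinset.mpr h))]
    rfl
  have h5 : ∑ a, (s.count (-a) : ℤ) = s.card := by
    rw [← h4]
    refine Fintype.sum_equiv (Equiv.neg _) _ _ fun a => ?_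
    rw [Equiv.neg_apply]
  calc ∑ a, |oddPart s a| ≤ ∑ a, ((s.count a : ℤ) + (s.count (-a) : ℤ)) := sum_le_sum fun a _ => h1 a
    _ = 2 * (s.card : ℤ) := by
      rw [sum_add_distrib, h4, h5]
      ring

lemma norm_BJ_three (hm : fJ {3} ∣ m) : ∑ a, |oddPart (BJ m {3}) a| ≤ 2 := by
  refine le_trans (norm_oddPart_le _) ?_
  have h1 : (BJ m {3}).card ≤ 1 := by
    rw [BJ_eq]
    show (BE m {3} 1).card ≤ 1
    rw [card_le_one]
    have key : ∀ a ∈ BE m {3} 1, a = ((m / fJ {3} * 1 : ℕ) : ZMod m) := by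
      intro a ha
      obtain ⟨k, hk, h2, h3⟩ := exists_of_mem_BE hm ha
      have h4 := h3 3 (mem_singleton_self 3)
      rw [fJ_single le_rfl] at hk
      have h5 : k = 1 := by
        have h6 := (ch_three k).mp h4
        omega
      rw [h2, h5]
    intro a ha b hb
    rw [key a ha, key b hb]
  have h2 : ((BJ m {3}).card : ℤ) ≤ 1 := by exact_mod_cast h1
  linarith

theorem ref3_theta (h6 : 6 ∣ m) {q : ℕ} (hq : q.Prime) (hq3 : 3 < q) (hq4 : q % 4 = 3)
    {G : Multiset (ZMod m) → Prop} (hG : ∀ s, Theta s → G s) : Ref3 m (YY G) q := by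
  classical
  intro Q n K hD hn hQ b hb
  have hK := K_ne_zero hD hQ
  have h2 : 2 ∣ m := (by norm_num : 2 ∣ 6).trans h6
  have hd : 3 ∣ n := hb ▸ addOrderOf_dvd_m b
  have hcop : Nat.Coprime 3 q := (Nat.coprime_primes Nat.prime_three hq).mpr (by omega)
  have hqm : q ∣ m := hD.qQ.trans hD.Qm
  have h3m : 3 ∣ m := (by norm_num : 3 ∣ 6).trans h6
  have hm : fJ {3, q} ∣ m := by
    rw [fJ_pair hq3]
    exact hcop.mul_dvd_of_dvd_of_dvd h3m hqm
  have hT := good_pair hq hq4
  set r := if q % 3 = 1 then q else 3 with hr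
  have hrT : {r} ⊆ ({3, q} : Finset ℕ) := by
    rw [hr]
    split_ifs <;> simp
  have hmr : fJ {r} ∣ m := (fJ_dvd hrT).trans hm
  have hTr := hT.mono hrT
  have hTate : TateF (oddPart (BJ m {3, q}) - oddPart (BJ m {r})) := by
    intro t
    have a1 := sum_BJ hT (insert_nonempty _ _) hm t
    have a2 := sum_BJ hTr (singleton_nonempty _) hmr t
    rw [Sf_pair hq hq3 hq4, ← a2] at a1
    have a3 := Int.cast_injective a1
    simp only [Pi.sub_apply, sub_mul, sum_sub_distrib]
    rw [a3, sub_self]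
  have hmem : oddPart (BJ m {3, q}) - oddPart (BJ m {r}) ∈ YY G :=
    mem_YY_of_theta h2 ((thetaSub m).sub_mem (oddPart_BJ_mem hT hm) (oddPart_BJ_mem hTr hmr))
      hTate hG
  have hodd : OddF (oddPart (BJ m {3, q}) - oddPart (BJ m {r})) :=
    (oddPart_odd _).sub (oddPart_odd _)
  have hp1 := part1_of (q := q) (F := oddPart (BJ m {3, q})) fun a ha => by
    rw [BJ_supp hT hm ha, fJ_pair hq3]
    exact Dvd.intro_left 3 rfl
  have e : oddPart (BJ m {3, q}) - oddPart (BJ m {r})
      = oddPart (BJ m {3, q}) + (-oddPart (BJ m {r})) := sub_eq_add_neg _ _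
  have key : Ref hD K (YY G) (jj hd 1) 2 (oddPart (BJ m {3, q}) - oddPart (BJ m {r})) ∧
      ∀ a, part0 q (oddPart (BJ m {3, q}) - oddPart (BJ m {r})) a ≠ 0 → addOrderOf a ∣ 6 := by
    by_cases hr1 : q % 3 = 1
    · have hrq : r = q := by rw [hr, if_pos hr1]
      rw [hrq] at hTate hmem hodd hmr hTr e ⊢
      have hp2 := part1_of (q := q) (F := oddPart (BJ m {q})) fun a ha => by
        rw [BJ_supp hTr hmr ha, fJ_single hq3.le]
      have hp0 : part0 q (oddPart (BJ m {3, q}) - oddPart (BJ m {q})) = 0 := by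
        rw [e, part0_add, part0_neg, hp1.2, hp2.2]
        simp
      refine ⟨⟨hodd, hTate, hmem, ?_, ?_, ?_⟩, ?_⟩
      · intro t
        rw [e, part1_add, part1_neg, hp1.1, hp2.1, upF_add, upF_neg, push_add, push_neg', PH_add,
          PH_neg, PH_pair hD hK hQ hq3 hm hd hq4, PH_single hD hK hQ hq3 hmr hq4, neg_zero, add_zero]
      · rw [hp0]
        simp
      · intro a ha
        rw [hp0] at ha
        exact absurd rfl ha
      · intro a ha
        rw [hp0] at ha
        exact absurd rfl ha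
    · have hrq : r = 3 := by rw [hr, if_neg hr1]
      rw [hrq] at hTate hmem hodd hmr hTr e ⊢
      have hp2 := part0_of (q := q) (F := oddPart (BJ m {3})) fun a ha h => by
        rw [BJ_supp hTr hmr ha, fJ_single le_rfl] at h
        have := Nat.le_of_dvd (by norm_num) h
        omega
      have hp0 : part0 q (oddPart (BJ m {3, q}) - oddPart (BJ m {3})) = - oddPart (BJ m {3}) := by
        rw [e, part0_add, part0_neg, hp1.2, hp2.2]
        simp
      have hs : ∀ a, (-oddPart (BJ m {3})) a ≠ 0 → addOrderOf a = 3 := by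
        intro a ha
        rw [Pi.neg_apply, neg_ne_zero] at ha
        rw [BJ_supp hTr hmr ha, fJ_single le_rfl]
      refine ⟨⟨hodd, hTate, hmem, ?_, ?_, ?_⟩, ?_⟩
      · intro t
        rw [e, part1_add, part1_neg, hp1.1, hp2.1, neg_zero, add_zero,
          PH_pair hD hK hQ hq3 hm hd hq4]
      · rw [hp0]
        simp only [Pi.neg_apply, abs_neg]
        exact norm_BJ_three hmr
      · intro a ha
        rw [hp0] at ha
        rw [hs a ha]
        norm_num
      · intro a ha
        rw [hp0] at ha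
        rw [hs a ha]
        norm_num
  have h7 : (2 : ℤ) * 2 ≤ q - 1 := by
    have : 5 ≤ q := by omega
    have : (5 : ℤ) ≤ q := by exact_mod_cast this
    linarith
  obtain ⟨u, hu⟩ := exists_unit_of_order hd hb
  have hu' : (u : ZMod 3) = 1 ∨ (u : ZMod 3) = -1 := by
    have : ∀ v : (ZMod 3)ˣ, (v : ZMod 3) = 1 ∨ (v : ZMod 3) = -1 := by decide
    exact this u
  rcases hu' with h | h
  · rw [← hu, h]
    exact ⟨_, 2, key.1, h7, key.2⟩
  · rw [← hu, h, map_neg]
    refine ⟨_, 2, key.1.neg, h7, ?_⟩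
    intro a ha
    rw [part0_neg, Pi.neg_apply, neg_ne_zero] at ha
    exact key.2 a ha

end Pool.Agent.Lib.MP_938ce2_ag_h99t
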