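import Pool.Agent.Lib.MP_938ce2_ag_h99t.Ch

/-!
The sum for an even set of primes is an integral combination of those of its odd subsets.
-/

set_option autoImplicit false
set_option linter.unusedSectionVars false
set_option linter.style.haveILetI false

open Finset

namespace Pool.Agent.Lib.MP_938ce2_ag_h99t

open Pool.Agent.Lib.MP_938ce2_ag_h99

/-- the sum over the residues with given signs -/
noncomputable def Sf (J : Finset ℕ) (ε : ℕ → ℤˣ) : ℚ :=
  ∑ k ∈ (range (fJ J)).filter (fun k : ℕ => ∀ q ∈ J, ch q k = ε q), ((k : ℚ) / (fJ J : ℕ) - 1 / 2)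

lemma ch_zero {p : ℕ} (hp : p.Prime) {k : ℕ} (h : p ∣ k) : ch p k = 0 := by
  unfold ch
  split_ifs with h2
  · subst h2
    have h3 : ((k : ℤ) : ZMod 4) = 0 ∨ ((k : ℤ) : ZMod 4) = 2 := by
      have h4 : (k : ℤ) % 4 = 0 ∨ (k : ℤ) % 4 = 2 := by omega
      rcases h4 with h4 | h4
      · left
        rw [ZMod.intCast_zmod_eq_zero_iff_dvd]
        exact Int.dvd_of_emod_eq_zero h4
      · right
        have h5 : ((k : ℤ) : ZMod 4) = ((2 : ℤ) : ZMod 4) := by
          rw [ZMod.intCast_eq_intCast_iff]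
          exact h4
        rw [h5]
        rfl
    rcases h3 with h3 | h3 <;> rw [h3] <;> decide
  · haveI : NeZero p := ⟨hp.ne_zero⟩
    rw [jacobiSym.eq_zero_iff_not_coprime]
    intro h3
    have h4 : p ∣ Int.gcd (k : ℤ) p := by
      rw [Int.gcd_natCast_natCast]
      exact Nat.dvd_gcd h dvd_rfl
    rw [h3] at h4
    exact hp.one_lt.ne' (Nat.dvd_one.mp h4)

lemma not_all {J : Finset ℕ} (hJ : Good J) (ε : ℕ → ℤˣ) {k : ℕ} (hk : ¬ Nat.Coprime k (fJ J)) :
    ¬ ∀ q ∈ J, ch q k = ε q := by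
  intro h
  apply hk
  rw [coprime_fJ_iff hJ]
  intro p hp hpk
  have h1 := h p hp
  rw [ch_zero (hJ p hp).1 hpk] at h1
  rcases Int.units_eq_one_or (ε p) with h2 | h2 <;> rw [h2] at h1 <;> norm_num at h1

lemma prod_one_add_eq {J : Finset ℕ} (ε : ℕ → ℤˣ) {k : ℤ}
    (hk : ∀ q ∈ J, ch q k = 1 ∨ ch q k = -1) :
    ∏ q ∈ J, (1 + (ε q : ℤ) * ch q k) = if ∀ q ∈ J, ch q k = ε q then 2 ^ J.card else 0 := by
  split_ifs with h
  · rw [← prod_const]
    refine prod_congr rfl fun q hq => ?_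
    rw [h q hq]
    rcases Int.units_eq_one_or (ε q) with h2 | h2 <;> rw [h2] <;> norm_num
  · push Not at h
    obtain ⟨q, hq, hne⟩ := h
    apply prod_eq_zero hq
    rcases Int.units_eq_one_or (ε q) with h2 | h2 <;> rcases hk q hq with h3 | h3 <;>
      rw [h2, h3] at hne ⊢
    · exact absurd rfl hne
    · norm_num
    · norm_num
    · exact absurd rfl hne

lemma two_pow_Sf {J : Finset ℕ} (hJ : Good J) (ε : ℕ → ℤˣ) :
    (2 : ℚ) ^ J.card * Sf J ε = ∑ I ∈ J.powerset, ((∏ q ∈ I, (ε q : ℤ) : ℤ) : ℚ) * C 1 J I := by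
  unfold Sf C
  simp only [mul_sum]
  rw [sum_comm, sum_filter, one_mul]
  refine sum_congr rfl fun k _ => ?_
  by_cases hk : Nat.Coprime k (fJ J)
  · have h1 := prod_one_add_eq (J := J) ε (k := (k : ℤ)) fun q hq => ch_sign_of_coprime hJ hk hq
    rw [prod_one_add] at h1
    have h2 : ∑ I ∈ J.powerset, ((∏ q ∈ I, (ε q : ℤ) : ℤ) : ℚ) *
        (if Nat.Coprime k (fJ J) then (cI I k : ℚ) * ((k : ℚ) / (fJ J : ℕ) - 1 / 2) else 0)
        = ((∑ I ∈ J.powerset, ∏ q ∈ I, (ε q : ℤ) * ch q k : ℤ) : ℚ)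
          * ((k : ℚ) / (fJ J : ℕ) - 1 / 2) := by
      rw [Int.cast_sum, sum_mul]
      refine sum_congr rfl fun I _ => ?_
      rw [if_pos hk, prod_mul_distrib, Int.cast_mul, mul_assoc]
      rfl
    rw [h2, h1]
    split_ifs with h3
    · push_cast
      rfl
    · simp
  · rw [if_neg (not_all hJ ε hk)]
    symm
    apply sum_eq_zero
    intro I _
    rw [if_neg hk, mul_zero]

/-- the primitive part -/
noncomputable def hh (I : Finset ℕ) (ε : ℕ → ℤˣ) : ℚ :=
  ((∏ q ∈ I, (ε q : ℤ) : ℤ) : ℚ) * C 1 I I / 2 ^ I.card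

/-- the coefficient -/
def dd (J I : Finset ℕ) : ℤ := ∏ p ∈ J \ I, (if cI I p = 1 then 0 else 1)

lemma dd_self (J : Finset ℕ) : dd J J = 1 := by
  unfold dd
  simp

lemma prod_sub_eq {J I : Finset ℕ} (hJ : Good J) (hIJ : I ⊆ J) :
    ∏ p ∈ J \ I, (1 - (cI I p : ℚ)) = 2 ^ (J \ I).card * (dd J I : ℚ) := by
  unfold dd
  rw [← prod_const, Int.cast_prod, ← prod_mul_distrib]
  refine prod_congr rfl fun p hp => ?_
  have hp' := mem_sdiff.mp hp
  have h1 : cI I p = 1 ∨ cI I p = -1 := by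
    apply cI_sign
    intro q hq
    apply ch_sign (hJ q (hIJ hq)).1
    intro h2
    have h3 := (Nat.prime_dvd_prime_iff_eq (hJ q (hIJ hq)).1 (hJ p hp'.1).1).mp
      (Int.natCast_dvd_natCast.mp h2)
    exact hp'.2 (h3 ▸ hq)
  rcases h1 with h1 | h1 <;> rw [h1] <;> norm_num

lemma Sf_eq {J : Finset ℕ} (hJ : Good J) (hne : J.Nonempty) :
    Sf J = ∑ I ∈ J.powerset.filter (fun I => Odd I.card), dd J I • hh I := by
  funext ε
  have h1 := two_pow_Sf hJ ε
  have h2 : ∑ I ∈ J.powerset, ((∏ q ∈ I, (ε q : ℤ) : ℤ) : ℚ) * C 1 J I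
      = (2 : ℚ) ^ J.card * ∑ I ∈ J.powerset.filter (fun I => Odd I.card), (dd J I : ℚ) * hh I ε := by
    rw [mul_sum, sum_filter]
    refine sum_congr rfl fun I hI => ?_
    have hIJ := mem_powerset.mp hI
    split_ifs with hodd
    · rw [C_red _ J hJ hIJ rfl, prod_sub_eq hJ hIJ]
      unfold hh
      have h3 : (J \ I).card + I.card = J.card := card_sdiff_add_card_eq_card hIJ
      rw [← h3, pow_add]
      field_simp
    · rw [C_even hJ hne hIJ (Nat.not_odd_iff_even.mp hodd), mul_zero]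
  rw [h2] at h1
  have h3 : (2 : ℚ) ^ J.card ≠ 0 := by positivity
  have h4 := mul_left_cancel₀ h3 h1
  rw [h4, Finset.sum_apply]
  refine sum_congr rfl fun I _ => ?_
  rw [Pi.smul_apply, zsmul_eq_mul]

lemma hh_mem {T : Finset ℕ} (hT : Good T) : ∀ (n : ℕ) (I : Finset ℕ), I.card = n → I ⊆ T →
    Odd I.card →
    hh I ∈ AddSubgroup.closure {g : (ℕ → ℤˣ) → ℚ | ∃ J, J ⊆ T ∧ Odd J.card ∧ g = Sf J} := by
  intro n
  induction n using Nat.strong_induction_on with
  | _ n ih =>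
    intro I hn hIT hodd
    have hne : I.Nonempty := card_pos.mp hodd.pos
    have h1 := Sf_eq (hT.mono hIT) hne
    have hmem : I ∈ I.powerset.filter (fun I => Odd I.card) :=
      mem_filter.mpr ⟨mem_powerset.mpr (Subset.refl I), hodd⟩
    rw [← add_sum_erase _ _ hmem, dd_self, one_smul] at h1
    have h2 : hh I = Sf I - ∑ x ∈ (I.powerset.filter (fun I => Odd I.card)).erase I, dd I x • hh x := by
      rw [h1]
      abel
    rw [h2]
    apply AddSubgroup.sub_mem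
    · exact AddSubgroup.subset_closure ⟨I, hIT, hodd, rfl⟩
    · apply AddSubgroup.sum_mem
      intro x hx
      obtain ⟨hxI, hx2⟩ := mem_erase.mp hx
      obtain ⟨hx3, hx4⟩ := mem_filter.mp hx2
      have hxs := mem_powerset.mp hx3
      apply AddSubgroup.zsmul_mem
      exact ih x.card (by rw [← hn]; exact card_lt_card (hxs.ssubset_of_ne hxI)) x rfl
        (hxs.trans hIT) hx4

theorem Sf_mem {T : Finset ℕ} (hT : Good T) (hne : T.Nonempty) :
    Sf T ∈ AddSubgroup.closure {g : (ℕ → ℤˣ) → ℚ | ∃ J, J ⊆ T ∧ Odd J.card ∧ g = Sf J} := by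
  rw [Sf_eq hT hne]
  apply AddSubgroup.sum_mem
  intro x hx
  obtain ⟨hx3, hx4⟩ := mem_filter.mp hx
  exact AddSubgroup.zsmul_mem _ (hh_mem hT _ x rfl (mem_powerset.mp hx3) hx4) _

end Pool.Agent.Lib.MP_938ce2_ag_h99t
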